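import Pool.Agent.H.MP_65850b_an.A

open Complex Filter Topology Set MeasureTheory
open scoped Real

namespace Pool.Agent.H.MP_c1ac71_an

theorem factor {f : ℂ → ℂ} (hf : Differentiable ℂ f) {w : ℂ} (hw : f w ≠ 0) (a : ℂ) :
    ∃ (n : ℕ) (g : ℂ → ℂ), Differentiable ℂ g ∧ g a ≠ 0 ∧ ∀ z, f z = (z - a) ^ n * g z := by
  classical
  have h1 : ¬ ∀ᶠ z in 𝓝 a, f z = 0 := fun h => hw
    (AnalyticOnNhd.eqOn_zero_of_preconnected_of_eventuallyEq_zero (U := univ)
      (fun z _ => hf.analyticAt z) isPreconnected_univ trivial h trivial)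
  obtain ⟨n, g, hg, hg0, e⟩ := (hf.analyticAt a).exists_eventuallyEq_pow_smul_nonzero_iff.2 h1
  refine ⟨n, fun z => if z = a then g a else f z / (z - a) ^ n, fun z => ?_, by simpa using hg0,
    fun z => ?_⟩
  · by_cases hz : z = a
    · subst hz
      refine hg.differentiableAt.congr_of_eventuallyEq (e.mono fun y hy => ?_)
      by_cases h : y = z
      · simp [h]
      · have : (y - z) ^ n ≠ 0 := pow_ne_zero _ (sub_ne_zero.2 h)
        simp only [h, if_false, hy, smul_eq_mul]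
        field_simp
    · refine ((hf z).div (d := fun y => (y - a) ^ n) (by fun_prop)
        (pow_ne_zero n (sub_ne_zero.2 hz))).congr_of_eventuallyEq
        ((eventually_ne_nhds hz).mono fun y hy => by simp [hy])
  · by_cases hz : z = a
    · simpa [hz] using e.self_of_nhds
    · have : (z - a) ^ n ≠ 0 := pow_ne_zero _ (sub_ne_zero.2 hz)
      simp only [hz, if_false]
      field_simp

theorem fin_zeros (S : Finset ℂ) : ∀ f : ℂ → ℂ, Differentiable ℂ f → (∃ w, f w ≠ 0) →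
    (∃ C, ∀ z, ‖f z‖ ≤ C * Real.exp (‖z‖ ^ 2)) → (∀ z, f z = 0 → z ∈ S) →
    ∃ (a c : ℝ) (m : ℕ), 0 < c ∧ ∀ᶠ x : ℝ in atTop, c * Real.exp (a * x ^ 2) ≤ ‖f x‖ * ‖f (-x)‖ ∧
      ‖f x‖ * ‖f (-x)‖ ≤ c * Real.exp (a * x ^ 2) * (2 * x) ^ m := by
  classical
  induction S using Finset.induction_on with
  | empty =>
    rintro f hf - ⟨C, hC⟩ hS
    have h0 : ∀ z, f z ≠ 0 := fun z h => by simpa using hS z h
    obtain ⟨a, b, e⟩ := Pool.Agent.H.MP_65850b_an.quad hf h0 hC
    have : ∀ x : ℝ, ‖f x‖ * ‖f (-x)‖ = ‖f 0‖ ^ 2 * Real.exp (2 * a.re * x ^ 2) := fun x => by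
      rw [← norm_mul, e x, e (-x), mul_mul_mul_comm, ← Complex.exp_add, norm_mul, norm_mul,
        norm_exp, show a * (x : ℂ) ^ 2 + b * x + (a * (-x) ^ 2 + b * -x) =
          ((2 * x ^ 2 : ℝ) : ℂ) * a by push_cast; ring, re_ofReal_mul]
      ring_nf
    exact ⟨2 * a.re, ‖f 0‖ ^ 2, 0, pow_pos (norm_pos_iff.2 (h0 0)) 2,
      Eventually.of_forall fun x => by simp [this]⟩
  | insert a S _ ih =>
    rintro f hf ⟨w, hw⟩ ⟨C, hC⟩ hS
    obtain ⟨n, g, hg, hg0, e⟩ := factor hf hw a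
    obtain ⟨D, hD⟩ := (isCompact_closedBall a 1).exists_bound_of_continuousOn
      hg.continuous.continuousOn
    obtain ⟨α, c, m, hc, h⟩ := ih g hg ⟨a, hg0⟩ ⟨max C (max D 0), fun z => by
      by_cases hz : z ∈ Metric.closedBall a 1
      · calc ‖g z‖ ≤ max C (max D 0) * 1 := by simp [hD z hz]
          _ ≤ _ := by
            gcongr
            exact Real.one_le_exp (by positivity)
      · have h1 : 1 ≤ ‖z - a‖ ^ n := one_le_pow₀ (by
          rw [mem_closedBall_iff_norm, not_le] at hz; exact hz.le)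
        calc ‖g z‖ ≤ ‖f z‖ := by
              rw [e z, norm_mul, norm_pow]
              exact le_mul_of_one_le_left (norm_nonneg _) h1
          _ ≤ _ := (hC z).trans (by gcongr; exact le_max_left _ _)⟩ fun z hz => by
      refine (Finset.mem_insert.1 (hS z (by rw [e z, hz, mul_zero]))).resolve_left ?_
      rintro rfl
      exact hg0 hz
    refine ⟨α, c, m + n + n, hc, ?_⟩
    filter_upwards [h, eventually_ge_atTop (‖a‖ + 1)] with x hx hx'
    have x0 : 0 ≤ x := le_trans (by positivity) hx'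
    have b : ∀ y : ℂ, ‖y‖ = x → 1 ≤ ‖y - a‖ ^ n ∧ ‖y - a‖ ^ n ≤ (2 * x) ^ n := fun y hy =>
      ⟨one_le_pow₀ (by linarith [norm_sub_norm_le y a]),
        pow_le_pow_left₀ (norm_nonneg _) (by linarith [norm_sub_le y a]) n⟩
    obtain ⟨b1, b2⟩ := b x (by simp [abs_of_nonneg x0])
    obtain ⟨b3, b4⟩ := b (-x) (by simp [abs_of_nonneg x0])
    rw [e x, e (-x), norm_mul, norm_mul, norm_pow, norm_pow, mul_mul_mul_comm]
    constructor
    · exact hx.1.trans (le_mul_of_one_le_left (by positivity) (one_le_mul_of_one_le_of_one_le b1 b3))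
    · calc _ ≤ (2 * x) ^ n * (2 * x) ^ n * (c * Real.exp (α * x ^ 2) * (2 * x) ^ m) := by
            exact mul_le_mul (mul_le_mul b2 b4 (by positivity) (by positivity)) hx.2
              (by positivity) (by positivity)
        _ = _ := by ring

theorem nonreal {f : ℂ → ℂ} (hf : Differentiable ℂ f)
    (hb : ∃ C, ∀ z, ‖f z‖ ≤ C * Real.exp (‖z‖ ^ 2)) (he : ∀ z, f (-z) = f z)
    (h0 : Tendsto (fun x : ℝ => ‖f x‖) atTop (𝓝 0)) {κ β : ℝ} (hκ : 0 < κ)
    (hl : ∀ᶠ x : ℝ in atTop, κ * Real.exp (-(β * x)) ≤ ‖f x‖) : ∃ z, z.im ≠ 0 ∧ f z = 0 := by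
  by_contra hne
  push Not at hne
  obtain ⟨M, hM⟩ := eventually_atTop.1 hl
  have hM' : ∀ x : ℝ, M ≤ x → f x ≠ 0 := fun x hx =>
    norm_pos_iff.1 (lt_of_lt_of_le (by positivity) (hM x hx))
  have hfin : {z | f z = 0}.Finite := by
    have h1 : {z | f z = 0} ⊆ Metric.closedBall 0 M := fun z hz => by
      have hz0 : z.im = 0 := by_contra fun h => hne z h hz
      obtain ⟨x, rfl⟩ : ∃ x : ℝ, z = x := ⟨z.re, Complex.ext rfl (by simpa using hz0)⟩
      rw [mem_closedBall_zero_iff, norm_real, Real.norm_eq_abs]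
      by_contra h
      rcases le_total 0 x with h2 | h2
      · exact hM' x (by rw [abs_of_nonneg h2] at h; linarith) hz
      · exact hM' (-x) (by rw [abs_of_nonpos h2] at h; linarith) (by rw [ofReal_neg, he]; exact hz)
    by_contra hinf
    obtain ⟨z, -, hz⟩ := (Set.not_finite.1 hinf).exists_accPt_of_subset_isCompact
      (isCompact_closedBall 0 M) h1
    exact hM' M le_rfl (AnalyticOnNhd.eqOn_zero_of_preconnected_of_frequently_eq_zero (U := univ)
      (fun z _ => hf.analyticAt z) isPreconnected_univ trivial (accPt_iff_frequently_nhdsNE.1 hz)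
      trivial)
  obtain ⟨a, c, m, hc, h⟩ := fin_zeros hfin.toFinset f hf ⟨M, hM' M le_rfl⟩ hb (by simp)
  simp only [he] at h
  rcases le_or_gt 0 a with ha | ha
  · obtain ⟨x, h1, h2⟩ := (h.and ((h0.mul h0).eventually (gt_mem_nhds (by simpa using hc)))).exists
    have : 1 ≤ Real.exp (a * x ^ 2) := Real.one_le_exp (by positivity)
    nlinarith [h1.1]
  · have t : Tendsto (fun x : ℝ => c * 2 ^ m * (x ^ m * Real.exp (-x))) atTop (𝓝 (c * 2 ^ m * 0)) :=
      (Real.tendsto_pow_mul_exp_neg_atTop_nhds_zero m).const_mul _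
    obtain ⟨x, ⟨h1, h2⟩, h3, h4, h5⟩ := ((h.and hl).and ((t.eventually (gt_mem_nhds (a := κ * κ)
      (by simpa using hκ.ne'))).and ((eventually_ge_atTop ((2 * β + 1) / (-a))).and
        (eventually_ge_atTop 0)))).exists
    rw [div_le_iff₀ (by linarith)] at h4
    have e1 : Real.exp (a * x ^ 2) ≤ Real.exp (-x) * (Real.exp (-(β * x)) * Real.exp (-(β * x))) := by
      rw [← Real.exp_add, ← Real.exp_add, Real.exp_le_exp]
      nlinarith
    have e2 := mul_self_le_mul_self (by positivity) h2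
    have e3 : 0 < Real.exp (-(β * x)) * Real.exp (-(β * x)) := by positivity
    have e4 := mul_lt_mul_of_pos_right h3 e3
    have e5 : c * Real.exp (a * x ^ 2) * (2 * x) ^ m ≤
        c * (Real.exp (-x) * (Real.exp (-(β * x)) * Real.exp (-(β * x)))) * (2 * x) ^ m := by gcongr
    rw [mul_pow] at e5 h1
    nlinarith [h1.2]

theorem zero_of_sin {X : Type*} [TopologicalSpace X] {s : Set X} (hs : IsPreconnected s)
    {f : X → ℝ} (hf : ContinuousOn f s) {a : X} (ha : a ∈ s) (h0 : f a = 0)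
    (h : ∀ x ∈ s, Real.sin (f x) = 0) : ∀ x ∈ s, f x = 0 := by
  intro x hx
  by_contra hne
  have h1 : min |f x| 1 ∈ Icc |f a| |f x| := ⟨by simp [h0], min_le_left _ _⟩
  obtain ⟨y, hy, e⟩ := hs.intermediate_value ha hx hf.abs h1
  replace e : |f y| = min |f x| 1 := e
  have h2 : 0 < |f y| := e ▸ lt_min (abs_pos.2 hne) one_pos
  have h3 : |f y| ≤ 1 := e ▸ min_le_right _ _
  have h4 := abs_le.1 h3
  exact (abs_pos.1 h2) ((Real.sin_eq_zero_iff_of_lt_of_lt (by linarith [Real.pi_gt_three])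
    (by linarith [Real.pi_gt_three])).1 (h y hy))

/-- the closed quarter strip -/
def Q (b : ℝ) : Set ℂ := {t | 0 ≤ t.re ∧ 0 ≤ t.im ∧ t.im ≤ b}

theorem exists_pow {Φ : ℂ → ℂ} {b y0 α : ℝ} (hα : 0 < α) (hy : 0 < y0) (hb : y0 < b) {S : Set ℂ}
    (hS : IsOpen S) (hQ : Q b ⊆ S) (hΦ : DifferentiableOn ℂ Φ S)
    (h1 : ∀ s : ℝ, 0 ≤ s → (Φ s).im = 0) (h2 : ∀ y : ℝ, 0 ≤ y → y ≤ b → (Φ (y * I)).im = 0)
    (h3 : 0 < (Φ 0).re) (h4 : ∀ t ∈ Q b, Φ t = 0 ↔ t = y0 * I) (h5 : deriv Φ (y0 * I) ≠ 0) :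
    ∃ Ψ : ℂ → ℂ, ContinuousOn Ψ (Q b) ∧ DifferentiableOn ℂ Ψ (interior (Q b)) ∧
      (∀ t ∈ Q b, ‖Ψ t‖ = ‖Φ t‖ ^ α) ∧ (∀ s : ℝ, 0 ≤ s → Ψ s = (((Φ s).re ^ α : ℝ) : ℂ)) ∧
      (∀ y : ℝ, 0 ≤ y → y ≤ y0 → (Ψ (y * I)).im = 0) ∧
      ∀ y : ℝ, y0 ≤ y → y ≤ b → (Ψ (y * I)).im = Real.sin (π * α) * ‖Φ (y * I)‖ ^ α := by
  classical
  have mI : ∀ y : ℝ, 0 ≤ y → y ≤ b → (y * I : ℂ) ∈ Q b := fun y a c => by simp [Q, a, c]
  have mR : ∀ s : ℝ, 0 ≤ s → (s : ℂ) ∈ Q b := fun s a => by simp [Q, a]; linarith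
  have m0 := mI y0 hy.le hb.le
  let W := dslope Φ (y0 * I)
  have hW : DifferentiableOn ℂ W S := (differentiableOn_dslope (hS.mem_nhds (hQ m0))).2 hΦ
  have eW : ∀ t, Φ t = (t - y0 * I) * W t := fun t => by
    rw [← smul_eq_mul, sub_smul_dslope, (h4 _ m0).2 rfl, sub_zero]
  have W0 : ∀ t ∈ Q b, W t ≠ 0 := fun t ht h => by
    have : t = y0 * I := (h4 t ht).1 (by rw [eW, h, mul_zero])
    rw [this] at h
    exact h5 (by simpa [W] using h)
  have cv : Convex ℝ (Q b) := (convex_halfSpace_re_ge 0).inter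
    ((convex_halfSpace_im_ge 0).inter (convex_halfSpace_im_le b))
  have := cv.contractibleSpace ⟨_, m0⟩
  have := cv.locallyPathConnectedSpace
  have z0 : (0 : ℂ) ∈ Q b := by simpa using mR 0 le_rfl
  have n0 : (0 - y0 * I : ℂ) ≠ 0 := by simp [hy.ne']
  have P0 : Φ 0 ≠ 0 := fun h => by simp [h] at h3
  obtain ⟨l, ⟨l0, hl⟩, -⟩ := isCoveringMapOn_exp.existsUnique_continuousMap_lifts
    (⟨(Q b).domRestrict W, continuousOn_iff_continuous_domRestrict.1
      (hW.continuousOn.mono hQ)⟩ : C(Q b, ℂ)) (a₀ := ⟨0, z0⟩)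
    (e₀ := log (Φ 0) - log (0 - y0 * I)) (by
      rw [exp_sub, exp_log P0, exp_log n0, eW 0]
      exact mul_div_cancel_left₀ _ n0) fun t => W0 t t.2
  let L : ℂ → ℂ := fun t => if h : t ∈ Q b then l ⟨t, h⟩ else 0
  have Lc : ContinuousOn L (Q b) := by
    rw [continuousOn_iff_continuous_domRestrict]
    convert map_continuous l
    ext t
    simp [L]
  have Le : ∀ t ∈ Q b, cexp (L t) = W t := fun t ht => by
    simpa [L, ht] using congrFun hl ⟨t, ht⟩
  have L0 : L 0 = log (Φ 0) - log (0 - y0 * I) := by simp only [L, z0, dif_pos, l0]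
  have key : ∀ t ∈ Q b, t ≠ y0 * I → cexp (L t + log (t - y0 * I)) = Φ t ∧
      cexp (α * L t) * (t - y0 * I) ^ (α : ℂ) = cexp (α * (L t + log (t - y0 * I))) :=
    fun t ht hn => by
      rw [Complex.exp_add, exp_log (sub_ne_zero.2 hn), Le t ht, eW t, mul_comm,
        cpow_def_of_ne_zero (sub_ne_zero.2 hn), ← Complex.exp_add]
      exact ⟨rfl, by ring_nf⟩
  have hsin : ∀ t ∈ Q b, t ≠ y0 * I → (Φ t).im = 0 →
      Real.sin ((L t + log (t - y0 * I)).im) = 0 := fun t ht hn h => by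
    rw [← (key t ht hn).1, exp_im] at h
    exact (mul_eq_zero.1 h).resolve_left (Real.exp_pos _).ne'
  have hnorm : ∀ t ∈ Q b, ‖cexp (α * L t) * (t - y0 * I) ^ (α : ℂ)‖ = ‖Φ t‖ ^ α := fun t ht => by
    rw [norm_mul, norm_cpow_real, eW, norm_mul, ← Le t ht, norm_exp, norm_exp, re_ofReal_mul,
      Real.mul_rpow (norm_nonneg _) (Real.exp_pos _).le, ← Real.exp_mul, mul_comm α, mul_comm]
  have i0 : (L 0 + log (0 - y0 * I)).im = 0 := by
    rw [L0, sub_add_cancel, log_im]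
    exact arg_eq_zero_iff.2 ⟨h3.le, by simpa using h1 0 le_rfl⟩
  have lg : ∀ y : ℝ, y < y0 → (log (y * I - y0 * I)).im = -(π / 2) := fun y h => by
    rw [log_im]
    exact arg_eq_neg_pi_div_two_iff.2 ⟨by simp, by simpa using h⟩
  have lg' : ∀ y : ℝ, y0 < y → (log (y * I - y0 * I)).im = π / 2 := fun y h => by
    rw [log_im]
    exact arg_eq_pi_div_two_iff.2 ⟨by simp, by simpa using h⟩
  have nI : ∀ y : ℝ, y ≠ y0 → (y * I : ℂ) ≠ y0 * I := fun y h e => h (by simpa using e)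
  have cI : ContinuousOn (fun y : ℝ => (L (y * I)).im - π / 2) (Icc 0 b) :=
    (continuous_im.comp_continuousOn (Lc.comp (by fun_prop) fun y hy => mI y hy.1 hy.2)).sub
      continuousOn_const
  have a1 : ∀ y ∈ Ico 0 y0, (L (y * I)).im - π / 2 = 0 := zero_of_sin isPreconnected_Ico
    (cI.mono fun y h => ⟨h.1, h.2.le.trans hb.le⟩) ⟨le_rfl, hy⟩ (by
      have := lg 0 hy
      simp only [ofReal_zero, zero_mul] at this ⊢
      rw [add_im, this] at i0
      exact i0) fun y h => by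
      have := hsin _ (mI y h.1 (h.2.le.trans hb.le)) (nI y h.2.ne) (h2 y h.1 (h.2.le.trans hb.le))
      rwa [add_im, lg y h.2] at this
  have a2 : (L (y0 * I)).im - π / 2 = 0 := EqOn.of_subset_closure (g := fun _ => 0) a1
    (cI.mono (Icc_subset_Icc_right hb.le)) continuousOn_const Ico_subset_Icc_self
    (by rw [closure_Ico hy.ne]) ⟨hy.le, le_rfl⟩
  have a3 : ∀ y ∈ Icc y0 b, (L (y * I)).im - π / 2 = 0 := zero_of_sin isPreconnected_Icc
    (cI.mono (Icc_subset_Icc_left hy.le)) ⟨le_rfl, hb.le⟩ a2 fun y h => by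
      rcases h.1.eq_or_lt with e | e
      · rw [← e, a2, Real.sin_zero]
      · have := hsin _ (mI y (hy.le.trans h.1) h.2) (nI y e.ne') (h2 y (hy.le.trans h.1) h.2)
        rw [add_im, lg' y e] at this
        rw [show (L (y * I)).im - π / 2 = (L (y * I)).im + π / 2 - π by ring, Real.sin_sub_pi,
          this, neg_zero]
  have nR : ∀ s : ℝ, (s : ℂ) ≠ y0 * I := fun s e => hy.ne (by simpa using congrArg im e)
  have a4 : ∀ s ∈ Ici (0 : ℝ), (L s + log (s - y0 * I)).im = 0 := zero_of_sin isPreconnected_Ici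
    (continuous_im.comp_continuousOn ((Lc.comp (by fun_prop) fun s hs => mR s hs).add
      (ContinuousOn.clog (by fun_prop) fun s _ => Or.inr (by simp [hy.ne'])))) self_mem_Ici
      (by simpa using i0) fun s h => hsin _ (mR s h) (nR s) (h1 s h)
  have him : ∀ t ∈ Q b, t ≠ y0 * I → (cexp (α * L t) * (t - y0 * I) ^ (α : ℂ)).im =
      Real.sin (α * (L t + log (t - y0 * I)).im) * ‖Φ t‖ ^ α := fun t ht hn => by
    rw [← hnorm t ht, (key t ht hn).2, exp_im, norm_exp, im_ofReal_mul, mul_comm]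
  refine ⟨fun t => cexp (α * L t) * (t - y0 * I) ^ (α : ℂ), ?_, fun t ht => ?_, hnorm,
    fun s hs => ?_, fun y a c => ?_, fun y a c => ?_⟩
  · refine (continuousOn_const.mul Lc).cexp.mul fun t ht => ContinuousAt.continuousWithinAt ?_
    exact (continuousAt_cpow_const_of_re_pos (z := t - y0 * I) (Or.inl (by simpa using ht.1))
      (by simpa using hα)).comp (f := fun t => t - y0 * I) (by fun_prop)
  · have hn : Q b ∈ 𝓝 t := mem_interior_iff_mem_nhds.1 ht
    have ht' := interior_subset ht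
    have hre : 0 < t.re := by
      have : interior (Q b) ⊆ interior {t : ℂ | 0 ≤ t.re} := interior_mono fun t h => h.1
      simpa [interior_setOf_le_re] using this ht
    have c : ContinuousAt L t := Lc.continuousAt hn
    have d : DifferentiableAt ℂ L t := by
      have e1 : ∀ᶠ s in 𝓝 t, ‖L s - L t‖ < 1 := by
        simpa [dist_eq_norm] using c.eventually (Metric.ball_mem_nhds (L t) one_pos)
      refine (((hW.differentiableAt (hS.mem_nhds (hQ ht'))).div_const (W t)).clog (by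
        simp [W0 t ht'])).add_const (L t) |>.congr_of_eventuallyEq ?_
      filter_upwards [e1, hn] with s hs hs'
      have := abs_lt.1 ((abs_im_le_norm _).trans_lt hs)
      rw [← Le s hs', ← Le t ht', ← exp_sub, log_exp (by linarith [Real.pi_gt_three])
        (by linarith [Real.pi_gt_three]), sub_add_cancel]
    exact ((d.const_mul _).cexp.mul (DifferentiableAt.cpow_const (by fun_prop)
      (Or.inl (by simpa using hre)))).differentiableWithinAt
  · obtain ⟨k1, k2⟩ := key _ (mR s hs) (nR s)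
    have := a4 s hs
    simp only [k2, ← k1]
    generalize L s + log (s - y0 * I) = w at this
    obtain ⟨r, rfl⟩ : ∃ r : ℝ, w = r := ⟨w.re, Complex.ext rfl (by simpa using this)⟩
    rw [exp_ofReal_re, ← Real.exp_mul, mul_comm]
    push_cast
    rfl
  · rcases c.eq_or_lt with e | e
    · simp [e, hα.ne']
    · simp only
      rw [him _ (mI y a (c.trans hb.le)) (nI y e.ne), add_im, lg y e, ← sub_eq_add_neg, a1 y ⟨a, e⟩]
      simp
  · rcases a.eq_or_lt with e | e
    · simp [← e, hα.ne', (h4 _ m0).2 rfl]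
    · simp only
      rw [him _ (mI y (hy.le.trans a) c) (nI y e.ne'), add_im, lg' y e,
        sub_eq_zero.1 (a3 y ⟨a, c⟩), add_halves, mul_comm α]

end Pool.Agent.H.MP_c1ac71_an
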