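import Mathlib

open Complex Filter Topology Set
open scoped Real

namespace Pool.Agent.H.MP_c1ac71_an

theorem exp_lb {x c : ℝ} (y : ℝ) (h0 : 0 ≤ y) (hx : y ≤ x)
    (h : c ≤ ∑ i ∈ Finset.range 14, y ^ i / i.factorial) : c ≤ Real.exp x :=
  h.trans ((Real.sum_le_exp_of_nonneg h0 14).trans (Real.exp_le_exp.2 hx))

theorem exp_neg_le {x c : ℝ} (hc : 0 < c) (h : c ≤ Real.exp x) : Real.exp (-x) ≤ 1 / c := by
  rw [Real.exp_neg, ← one_div]
  exact one_div_le_one_div_of_le hc h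

/-- the linear factor -/
noncomputable def A (u : ℂ) : ℂ := 2 * π * u - 3

/-- the normalised tail terms -/
noncomputable def g (k : ℕ) (u : ℂ) : ℂ :=
  (k + 3) ^ 2 * ((k + 3) ^ 2 + 3 * ((k + 3) ^ 2 - 1) / A u) * cexp (-(π * ((k + 3) ^ 2 - 4)) * u)

/-- the normalised kernel -/
noncomputable def K (u : ℂ) : ℂ := cexp (3 * π * u) + 16 + 36 / A u + ∑' k, g k u

theorem A_lb {u : ℂ} (h : 1 ≤ ‖u‖) : 3.28 ≤ ‖A u‖ := by
  have h1 := norm_sub_norm_le (2 * π * u) 3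
  have : ‖(2 * π * u : ℂ)‖ = 2 * π * ‖u‖ := by simp [abs_of_pos Real.pi_pos]
  have h3 : ‖(3 : ℂ)‖ = 3 := by simp
  unfold A
  nlinarith [Real.pi_gt_d2]

theorem pow4 (k : ℕ) : ((k : ℝ) + 3) ^ 4 ≤ 81 * 4 ^ k := by
  induction k with
  | zero => norm_num
  | succ k ih =>
    have : (0 : ℝ) ≤ k := k.cast_nonneg
    have h : ((k : ℝ) + 1 + 3) ≤ 4 / 3 * (k + 3) := by linarith
    have := pow_le_pow_left₀ (by positivity) h 4
    push_cast
    rw [pow_succ (4 : ℝ) k]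
    rw [mul_pow] at this
    nlinarith [pow_nonneg (show (0 : ℝ) ≤ k + 3 by positivity) 4]

theorem pow2 (k : ℕ) : ((k : ℝ) + 3) ^ 2 - 4 ≤ 5 * 3 ^ k := by
  induction k with
  | zero => norm_num
  | succ k ih =>
    have : (0 : ℝ) ≤ k := k.cast_nonneg
    push_cast
    rw [pow_succ (3 : ℝ) k]
    nlinarith

theorem exp_k (k : ℕ) {x : ℝ} (hx : 0.28 ≤ x) :
    Real.exp (-(π * ((k + 3) ^ 2 - 4)) * x) ≤ Real.exp (-(5 * π * x)) * (1 / 400) ^ k := by
  have h6 : Real.exp (-6) ≤ 1 / 400 := exp_neg_le (by norm_num)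
    (exp_lb 6 (by norm_num) le_rfl (by norm_num [Finset.sum_range_succ, Nat.factorial]))
  refine le_trans ?_ (mul_le_mul_of_nonneg_left (pow_le_pow_left₀ (Real.exp_pos _).le h6 k)
    (Real.exp_pos _).le)
  rw [← Real.exp_nat_mul, ← Real.exp_add, Real.exp_le_exp]
  have hk : (k : ℝ) ≤ k ^ 2 := by exact_mod_cast Nat.le_self_pow two_ne_zero k
  have h0 : (0 : ℝ) ≤ k := k.cast_nonneg
  have h1 : 6 / 7 ≤ π * x := by nlinarith [Real.pi_gt_d2]
  nlinarith [mul_le_mul_of_nonneg_left hk (show 0 ≤ π * x by linarith), mul_nonneg h0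
    (sub_nonneg.2 h1)]

theorem norm_exp_k (k : ℕ) (u : ℂ) : ‖cexp (-(π * ((k + 3) ^ 2 - 4)) * u)‖ =
    Real.exp (-(π * ((k + 3) ^ 2 - 4)) * u.re) := by
  rw [norm_exp, show (-(π * ((k + 3) ^ 2 - 4)) : ℂ) = ((-(π * ((k + 3) ^ 2 - 4)) : ℝ) : ℂ) by
    push_cast; ring, re_ofReal_mul]

theorem norm_fac (k : ℕ) {u : ℂ} {D : ℝ} (hD : 0 < D) (h : D ≤ ‖A u‖) :
    ‖((k + 3) ^ 2 + 3 * ((k + 3) ^ 2 - 1) / A u : ℂ)‖ ≤ (k + 3) ^ 2 * (1 + 3 / D) := by
  have h0 : (0 : ℝ) ≤ k := k.cast_nonneg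
  have e1 : ((k + 3) ^ 2 : ℂ) = (((k + 3) ^ 2 : ℝ) : ℂ) := by push_cast; ring
  have e2 : (3 * ((k + 3) ^ 2 - 1) : ℂ) = ((3 * ((k + 3) ^ 2 - 1) : ℝ) : ℂ) := by push_cast; ring
  refine (norm_add_le _ _).trans ?_
  rw [norm_div, e2, e1, norm_real, norm_real, Real.norm_of_nonneg (by positivity),
    Real.norm_of_nonneg (by nlinarith), mul_add, mul_one, add_le_add_iff_left, ← mul_div_assoc]
  exact div_le_div₀ (by positivity) (by linarith) hD h

theorem norm_sq3 (k : ℕ) : ‖((k + 3) ^ 2 : ℂ)‖ = (k + 3) ^ 2 := by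
  rw [show ((k + 3) ^ 2 : ℂ) = (((k + 3) ^ 2 : ℝ) : ℂ) by push_cast; ring, norm_real,
    Real.norm_of_nonneg (by positivity)]

theorem g_le (k : ℕ) {u : ℂ} {D : ℝ} (hD : 0 < D) (h : D ≤ ‖A u‖) (hx : 0.28 ≤ u.re) :
    ‖g k u‖ ≤ 81 * (1 + 3 / D) * Real.exp (-(5 * π * u.re)) * (1 / 100) ^ k := by
  rw [g, norm_mul, norm_mul, norm_exp_k, norm_sq3]
  calc _ ≤ ((k : ℝ) + 3) ^ 2 * ((k + 3) ^ 2 * (1 + 3 / D)) *
        (Real.exp (-(5 * π * u.re)) * (1 / 400) ^ k) := by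
        gcongr
        · exact norm_fac k hD h
        · exact exp_k k hx
    _ = (k + 3) ^ 4 * ((1 + 3 / D) * Real.exp (-(5 * π * u.re)) * (1 / 400) ^ k) := by ring
    _ ≤ 81 * 4 ^ k * ((1 + 3 / D) * Real.exp (-(5 * π * u.re)) * (1 / 400) ^ k) := by
        gcongr
        exact pow4 k
    _ = _ := by
        rw [show (1 / 100 : ℝ) = 4 * (1 / 400) by norm_num, mul_pow]
        ring

theorem g_summable {u : ℂ} (h : 1 ≤ ‖u‖) (hx : 0.28 ≤ u.re) : Summable fun k => g k u :=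
  Summable.of_norm_bounded ((summable_geometric_of_lt_one (by norm_num)
    (by norm_num)).mul_left _) fun k => g_le k (by norm_num) (A_lb h) hx

theorem tail_le {u : ℂ} {D : ℝ} (hD : 0 < D) (h : D ≤ ‖A u‖) (hx : 0.28 ≤ u.re) :
    ‖∑' k, g k u‖ ≤ 82 * (1 + 3 / D) * Real.exp (-(5 * π * u.re)) := by
  refine (tsum_of_norm_bounded ((hasSum_geometric_of_lt_one (r := 1 / 100) (by norm_num)
    (by norm_num)).mul_left _) fun k => g_le k hD h hx).trans ?_
  have : 0 ≤ (1 + 3 / D) * Real.exp (-(5 * π * u.re)) := by positivity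
  nlinarith

theorem norm_e3 (u : ℂ) : ‖cexp (3 * π * u)‖ = Real.exp (3 * π * u.re) := by
  rw [norm_exp, show (3 * π : ℂ) = ((3 * π : ℝ) : ℂ) by push_cast; ring, re_ofReal_mul]

theorem K_le {u : ℂ} (h : 1 ≤ ‖u‖) (hx : 0.28 ≤ u.re) : ‖K u‖ ≤ 200 * Real.exp (3 * π * u.re) := by
  have h1 := tail_le (by norm_num) (A_lb h) hx
  have h2 : Real.exp (-(5 * π * u.re)) ≤ 1 := Real.exp_le_one_iff.2 (by nlinarith [Real.pi_pos])
  have h3 : 1 ≤ Real.exp (3 * π * u.re) := Real.one_le_exp (by nlinarith [Real.pi_pos])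
  have h4 : ‖36 / A u‖ ≤ 36 / 3.28 := by
    rw [norm_div]
    exact div_le_div₀ (by norm_num) (by simp) (by norm_num) (A_lb h)
  have h5 := norm_add_le (cexp (3 * π * u) + 16 + 36 / A u) (∑' k, g k u)
  have h6 := norm_add₃_le (a := cexp (3 * π * u)) (b := 16) (c := 36 / A u)
  have h7 : ‖(16 : ℂ)‖ = 16 := by simp
  rw [norm_e3] at h6
  have h8 : 82 * (1 + 3 / 3.28) * Real.exp (-(5 * π * u.re)) ≤ 158 := by nlinarith
  have h9 : (36 / 3.28 : ℝ) ≤ 11 := by norm_num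
  unfold K
  linarith

theorem K_far {u : ℂ} (h : 1 ≤ ‖u‖) (hx : 0.305 ≤ u.re) :
    ‖K u - cexp (3 * π * u)‖ < ‖cexp (3 * π * u)‖ := by
  have e : K u - cexp (3 * π * u) = 16 + 36 / A u + ∑' k, g k u := by unfold K; ring
  have p1 := Real.pi_gt_d4
  have p2 := Real.pi_lt_d4
  have h2 : Real.exp (-(5 * π * u.re)) ≤ 1 / 120 := exp_neg_le (by norm_num)
    (exp_lb 4.79 (by norm_num) (by nlinarith)
      (by norm_num [Finset.sum_range_succ, Nat.factorial]))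
  have hA := A_lb h
  rw [e, norm_e3]
  refine (norm_add_le _ _).trans_lt ?_
  by_cases hc : u.re ≤ 0.37
  · have n1 : 1 ≤ u.re ^ 2 + u.im ^ 2 := by
      have := Complex.sq_norm u
      rw [normSq_apply] at this
      nlinarith
    have a2 : ‖A u‖ ^ 2 = (2 * π * u.re - 3) ^ 2 + (2 * π * u.im) ^ 2 := by
      rw [Complex.sq_norm, normSq_apply]; simp [A]; ring
    have a3 : 34.5 ≤ ‖A u‖ ^ 2 := by
      rw [a2]
      nlinarith [mul_le_mul_of_nonneg_left n1 (show 0 ≤ 4 * π ^ 2 by positivity)]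
    have a4 : 5.87 ≤ ‖A u‖ := by nlinarith
    have h1 := tail_le (by norm_num) a4 (by linarith)
    have b2 : ‖16 * A u + 36‖ ^ 2 = 256 * ‖A u‖ ^ 2 + 1152 * (2 * π * u.re - 3) + 1296 := by
      rw [a2, Complex.sq_norm, normSq_apply]; simp [A]; ring
    have b3 : ‖16 * A u + 36‖ ≤ 16.47 * ‖A u‖ :=
      abs_le_of_sq_le_sq' (by rw [b2]; nlinarith) (by positivity) |>.2
    have b4 : ‖16 + 36 / A u‖ ≤ 16.47 := by
      have : A u ≠ 0 := norm_pos_iff.1 (by linarith)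
      rw [show 16 + 36 / A u = (16 * A u + 36) / A u by field_simp, norm_div,
        div_le_iff₀ (by linarith)]
      exact b3
    have h3 : 17.6 ≤ Real.exp (3 * π * u.re) := exp_lb 2.874 (by norm_num) (by nlinarith)
      (by norm_num [Finset.sum_range_succ, Nat.factorial])
    norm_num at *
    linarith
  · have h1 := tail_le (by norm_num) hA (by linarith)
    have h4 : ‖36 / A u‖ ≤ 36 / 3.28 := by
      rw [norm_div]
      exact div_le_div₀ (by norm_num) (by simp) (by norm_num) hA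
    have h3 : 30 ≤ Real.exp (3 * π * u.re) := exp_lb 3.48 (by norm_num) (by nlinarith)
      (by norm_num [Finset.sum_range_succ, Nat.factorial])
    have h6 := norm_add_le 16 (36 / A u)
    have h7 : ‖(16 : ℂ)‖ = 16 := by simp
    norm_num at *
    linarith

/-- the small region that contains the zero -/
def R : Set ℂ := {u | 1 ≤ ‖u‖ ∧ 0.28 * ‖u‖ ≤ u.re ∧ 0 ≤ u.im ∧ u.re ≤ 0.305}

theorem R_box {u : ℂ} (h : u ∈ R) : 0.28 ≤ u.re ∧ 0.952 ≤ u.im ∧ u.im ≤ 1.046 ∧ 5.98 ≤ ‖A u‖ := by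
  obtain ⟨h1, h2, h3, h4⟩ := h
  have n := Complex.sq_norm u
  rw [normSq_apply] at n
  have a : 0.28 ≤ u.re := by linarith
  have b : 0.952 ≤ u.im := by nlinarith
  refine ⟨a, b, by nlinarith, ?_⟩
  have := im_le_norm (A u)
  simp only [A, sub_im, mul_im, mul_re, re_ofNat, ofReal_re, im_ofNat, ofReal_im] at this
  unfold A
  nlinarith [Real.pi_gt_d4]

theorem exp_lip {κ : ℝ} (hκ : 0 ≤ κ) {u v : ℂ} (hu : 0.28 ≤ u.re) (hv : 0.28 ≤ v.re) :
    ‖cexp (-κ * u) - cexp (-κ * v)‖ ≤ κ * Real.exp (-κ * 0.28) * ‖u - v‖ := by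
  refine (convex_halfSpace_re_ge 0.28).norm_image_sub_le_of_norm_hasDerivWithin_le
    (f := fun z => cexp (-κ * z)) (f' := fun z => cexp (-κ * z) * (-κ))
    (fun z _ => ?_) (fun z hz => ?_) hv hu
  · simpa using ((hasDerivAt_id z).const_mul (-κ : ℂ)).cexp.hasDerivWithinAt
  · rw [norm_mul, norm_neg, norm_real, Real.norm_of_nonneg hκ, norm_exp, ← ofReal_neg,
      re_ofReal_mul, mul_comm]
    have : 0.28 ≤ z.re := hz
    exact mul_le_mul_of_nonneg_left (Real.exp_le_exp.2 (by nlinarith)) hκ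

theorem K_lip {u v : ℂ} (hu : u ∈ R) (hv : v ∈ R) : 6 * ‖u - v‖ ≤ ‖K u - K v‖ := by
  obtain ⟨a1, a2, a3, a4⟩ := R_box hu
  obtain ⟨b1, b2, b3, b4⟩ := R_box hv
  have p1 := Real.pi_gt_d4
  have p2 := Real.pi_lt_d4
  have n0 := norm_nonneg (u - v)
  have hA : A u ≠ 0 := norm_pos_iff.1 (by linarith)
  have hB : A v ≠ 0 := norm_pos_iff.1 (by linarith)
  have hinv : ‖1 / A u - 1 / A v‖ ≤ 0.1758 * ‖u - v‖ := by
    rw [show 1 / A u - 1 / A v = -(2 * π * (u - v)) / (A u * A v) by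
      field_simp; unfold A; ring, norm_div, norm_neg, norm_mul, norm_mul, norm_mul,
      div_le_iff₀ (by positivity)]
    have : 5.98 * 5.98 ≤ ‖A u‖ * ‖A v‖ := by gcongr
    simp only [Complex.norm_ofNat, norm_real, Real.norm_of_nonneg Real.pi_pos.le]
    nlinarith [mul_le_mul_of_nonneg_left this n0]
  have h81 : Real.exp (-(5 * π * 0.28)) ≤ 1 / 81 := exp_neg_le (by norm_num)
    (exp_lb 4.398 (by norm_num) (by nlinarith)
      (by norm_num [Finset.sum_range_succ, Nat.factorial]))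
  have hg : ∀ k, ‖g k u - g k v‖ ≤ 24.15 * ‖u - v‖ * (3 / 100) ^ k := fun k => by
    have h0 : (0 : ℝ) ≤ k := k.cast_nonneg
    have c0 : (5 : ℝ) ≤ (k + 3) ^ 2 - 4 := by nlinarith
    have e : g k u - g k v = (k + 3) ^ 2 * (((k + 3) ^ 2 + 3 * ((k + 3) ^ 2 - 1) / A u) *
        (cexp (-(π * ((k + 3) ^ 2 - 4)) * u) - cexp (-(π * ((k + 3) ^ 2 - 4)) * v)) +
        3 * ((k + 3) ^ 2 - 1) * (1 / A u - 1 / A v) * cexp (-(π * ((k + 3) ^ 2 - 4)) * v)) := by
      unfold g; ring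
    have c1 := exp_lip (κ := π * ((k + 3) ^ 2 - 4)) (by positivity) a1 b1
    push_cast at c1
    have c2 := (exp_k k le_rfl).trans (mul_le_mul_of_nonneg_right h81 (by positivity))
    have c3 : ‖cexp (-(π * ((k + 3) ^ 2 - 4)) * v)‖ ≤ 1 / 81 * (1 / 400) ^ k := by
      rw [norm_exp_k]
      refine le_trans (Real.exp_le_exp.2 ?_) c2
      nlinarith [mul_le_mul_of_nonneg_left b1 (show 0 ≤ π * ((k + 3) ^ 2 - 4) by positivity)]
    have c4 : ‖(3 * ((k + 3) ^ 2 - 1) : ℂ)‖ ≤ 3 * (k + 3) ^ 2 := by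
      rw [show (3 * ((k + 3) ^ 2 - 1) : ℂ) = ((3 * ((k + 3) ^ 2 - 1) : ℝ) : ℂ) by push_cast; ring,
        norm_real, Real.norm_of_nonneg (by nlinarith)]
      linarith
    rw [e, norm_mul, norm_sq3]
    calc _ ≤ ((k : ℝ) + 3) ^ 2 * ((k + 3) ^ 2 * (1 + 3 / 5.98) * (π * ((k + 3) ^ 2 - 4) *
          (1 / 81 * (1 / 400) ^ k) * ‖u - v‖) +
          3 * (k + 3) ^ 2 * (0.1758 * ‖u - v‖) * (1 / 81 * (1 / 400) ^ k)) := by
          gcongr
          refine (norm_add_le _ _).trans ?_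
          rw [norm_mul, norm_mul, norm_mul]
          gcongr
          · exact norm_fac k (by norm_num) a4
          · refine c1.trans ?_
            gcongr
      _ = (k + 3) ^ 4 * ((1 + 3 / 5.98) * π * ((k + 3) ^ 2 - 4) + 3 * 0.1758) *
          (1 / 81 * (1 / 400) ^ k * ‖u - v‖) := by ring
      _ ≤ 81 * 4 ^ k * (4.83 * (5 * 3 ^ k)) * (1 / 81 * (1 / 400) ^ k * ‖u - v‖) := by
          gcongr
          · exact pow4 k
          · nlinarith [pow2 k]
      _ = _ := by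
          rw [show (3 / 100 : ℝ) = 4 * 3 * (1 / 400) by norm_num, mul_pow, mul_pow]
          ring
  have ht : ‖∑' k, g k u - ∑' k, g k v‖ ≤ 24.9 * ‖u - v‖ := by
    rw [← (g_summable hu.1 a1).tsum_sub (g_summable hv.1 b1)]
    refine (tsum_of_norm_bounded ((hasSum_geometric_of_lt_one (r := 3 / 100) (by norm_num)
      (by norm_num)).mul_left _) hg).trans ?_
    nlinarith
  have hd : ‖u - v‖ ≤ 0.1 := by
    have n := Complex.sq_norm (u - v)
    rw [normSq_apply, sub_re, sub_im] at n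
    have := hu.2.2.2
    have := hv.2.2.2
    refine (abs_le_of_sq_le_sq' ?_ (by norm_num)).2
    rw [n]
    nlinarith
  have hw : ‖(3 * π * (u - v) : ℂ)‖ = 3 * π * ‖u - v‖ := by simp [abs_of_pos Real.pi_pos]
  have he : 38 * ‖u - v‖ ≤ ‖cexp (3 * π * u) - cexp (3 * π * v)‖ := by
    rw [show cexp (3 * π * u) - cexp (3 * π * v) =
      cexp (3 * π * v) * (cexp (3 * π * (u - v)) - 1) by
        rw [mul_sub, ← Complex.exp_add]; ring_nf, norm_mul, norm_e3]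
    have d1 : 13.99 ≤ Real.exp (3 * π * v.re) := exp_lb 2.6388 (by norm_num) (by nlinarith)
      (by norm_num [Finset.sum_range_succ, Nat.factorial])
    have d2 := Complex.exp_bound (x := 3 * π * (u - v)) (by rw [hw]; nlinarith) (n := 2) two_pos
    simp only [Finset.sum_range_succ, Finset.range_zero, Finset.sum_empty, Nat.factorial] at d2
    have d3 := norm_sub_norm_le (3 * π * (u - v) : ℂ) (cexp (3 * π * (u - v)) - 1)
    rw [norm_sub_rev (3 * π * (u - v) : ℂ)] at d3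
    have d4 : ‖cexp (3 * π * (u - v)) - 1 - 3 * π * (u - v)‖ ≤ (3 * π * ‖u - v‖) ^ 2 * (3 / 4) := by
      rw [← hw]
      convert d2 using 2
      · push_cast; ring
      · norm_num
    rw [hw] at d3
    have d5 : 3 * π * ‖u - v‖ ≤ 0.9425 := by nlinarith
    have d6 : 2.762 * ‖u - v‖ ≤ ‖cexp (3 * π * (u - v)) - 1‖ := by
      have : (3 * π * ‖u - v‖) ^ 2 ≤ 0.9425 * (3 * π * ‖u - v‖) := by
        rw [sq]; gcongr
      nlinarith
    nlinarith [mul_le_mul d1 d6 (by positivity) (by positivity)]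
  have e : cexp (3 * π * u) - cexp (3 * π * v) =
      K u - K v - 36 * (1 / A u - 1 / A v) - (∑' k, g k u - ∑' k, g k v) := by unfold K; ring
  rw [e] at he
  have f1 := norm_sub_le (K u - K v - 36 * (1 / A u - 1 / A v)) (∑' k, g k u - ∑' k, g k v)
  have f2 := norm_sub_le (K u - K v) (36 * (1 / A u - 1 / A v))
  rw [norm_mul, Complex.norm_ofNat] at f2
  linarith

end Pool.Agent.H.MP_c1ac71_an
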