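import Pool.Agent.H.MP_c1ac71_an.A

open Complex Filter Topology Set MeasureTheory
open scoped Real

namespace Pool.Agent.H.MP_c1ac71_an

theorem shift {Ψ : ℂ → ℂ} {b C x : ℝ} (hb : 0 < b) (hx : 0 ≤ x) (hc : ContinuousOn Ψ (Q b))
    (hd : DifferentiableOn ℂ Ψ (interior (Q b)))
    (hC : ∀ t ∈ Q b, ‖Ψ t‖ ≤ C * Real.exp (-2 * t.re ^ 2))
    (hi : IntegrableOn (fun v : ℝ => Ψ v * cexp (x * I * v)) (Ioi 0)) :
    ‖(∫ v : ℝ in Ioi 0, Ψ v * cexp (x * I * v)) -
      I * ∫ y in (0 : ℝ)..b, Ψ (y * I) * cexp (x * I * (y * I))‖ ≤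
      C * (∫ v : ℝ in Ioi 0, Real.exp (-2 * v ^ 2)) * Real.exp (-(b * x)) := by
  have C0 : 0 ≤ C := by simpa using (norm_nonneg _).trans (hC 0 ⟨le_rfl, le_rfl, hb.le⟩)
  have gi := (integrable_exp_neg_mul_sq (b := 2) two_pos).integrableOn (s := Ioi 0)
  have ne : ∀ t : ℂ, ‖cexp (x * I * t)‖ = Real.exp (-(t.im * x)) := fun t => by
    rw [norm_exp]; simp [mul_comm]
  have t1 := ((intervalIntegral_tendsto_integral_Ioi 0 hi tendsto_id).sub_const
    (I * ∫ y in (0 : ℝ)..b, Ψ (y * I) * cexp (x * I * (y * I)))).norm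
  have t2 : Tendsto (fun r : ℝ => C * (∫ v : ℝ in Ioi 0, Real.exp (-2 * v ^ 2)) *
      Real.exp (-(b * x)) + C * Real.exp (-2 * r ^ 2) * b) atTop (𝓝 (_ + C * 0 * b)) :=
    tendsto_const_nhds.add (((Real.tendsto_exp_atBot.comp ((tendsto_pow_atTop
      two_ne_zero).const_mul_atTop_of_neg (by norm_num))).const_mul C).mul_const b)
  rw [mul_zero, zero_mul, add_zero] at t2
  refine le_of_tendsto_of_tendsto t1 t2 ((eventually_ge_atTop 0).mono fun r hr => ?_)
  have h := integral_boundary_rect_eq_zero_of_continuousOn_of_differentiableOn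
    (fun t => Ψ t * cexp (x * I * t)) 0 (r + b * I) ((hc.mono fun t ht => by
      simp only [mem_reProdIm] at ht
      simp [uIcc_of_le hr, uIcc_of_le hb.le] at ht
      exact ⟨ht.1.1, ht.2.1, ht.2.2⟩).mul (by fun_prop))
    ((hd.mono (interior_maximal (fun t ht => by
      simp only [mem_reProdIm] at ht
      simp [hr, hb.le] at ht
      exact ⟨ht.1.1.le, ht.2.1.le, ht.2.2.le⟩) (isOpen_Ioo.reProdIm isOpen_Ioo))).mul (by fun_prop))
  simp only [zero_re, zero_im, add_re, add_im, ofReal_re, ofReal_im, mul_re, mul_im, I_re, I_im,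
    mul_zero, mul_one, sub_self, add_zero, zero_add, ofReal_zero, zero_mul, smul_eq_mul] at h
  have e : (∫ v : ℝ in (0 : ℝ)..r, Ψ v * cexp (x * I * v)) -
      I * ∫ y in (0 : ℝ)..b, Ψ (y * I) * cexp (x * I * (y * I)) =
      (∫ v : ℝ in (0 : ℝ)..r, Ψ (v + b * I) * cexp (x * I * (v + b * I))) -
      I * ∫ y in (0 : ℝ)..b, Ψ (r + y * I) * cexp (x * I * (r + y * I)) := by
    linear_combination h
  simp only [id]
  rw [e]
  refine (norm_sub_le _ _).trans (add_le_add ?_ ?_)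
  · rw [intervalIntegral.integral_of_le hr, mul_right_comm, ← integral_const_mul]
    refine (norm_integral_le_of_norm_le ((gi.mono_set Ioc_subset_Ioi_self).const_mul
      (C * Real.exp (-(b * x)))) ((ae_restrict_iff' measurableSet_Ioc).2 (ae_of_all _
        fun v hv => ?_))).trans (setIntegral_mono_set (gi.const_mul _)
          (ae_of_all _ fun v => by positivity) Ioc_subset_Ioi_self.eventuallyLE)
    have := hC (v + b * I) (by simp [Q, hv.1.le, hb.le])
    rw [norm_mul, ne, mul_right_comm]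
    simp only [add_re, add_im, ofReal_re, ofReal_im, mul_re, mul_im, I_re, I_im,
      mul_zero, mul_one, sub_self, add_zero, zero_add] at this ⊢
    gcongr
  · rw [norm_mul, norm_I, one_mul]
    refine (intervalIntegral.norm_integral_le_of_norm_le_const (C := C * Real.exp (-2 * r ^ 2))
      fun y hy => ?_).trans (by rw [sub_zero, abs_of_pos hb])
    rw [uIoc_of_le hb.le] at hy
    have := hC (r + y * I) (by simp [Q, hy.1.le, hy.2, hr])
    rw [norm_mul, ne]
    simp only [add_re, add_im, ofReal_re, ofReal_im, mul_re, mul_im, I_re, I_im,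
      mul_zero, mul_one, sub_self, add_zero, zero_add] at this ⊢
    exact (mul_le_of_le_one_right (norm_nonneg _) (Real.exp_le_one_iff.2
      (neg_nonpos.2 (mul_nonneg hy.1.le hx)))).trans this

theorem abstract {Φ : ℂ → ℂ} {b y0 α C : ℝ} (hα : 0 < α) (hy : 0 < y0) (hb : y0 < b) {S : Set ℂ}
    (hS : IsOpen S) (hQ : Q b ⊆ S) (hΦ : DifferentiableOn ℂ Φ S)
    (h1 : ∀ s : ℝ, 0 ≤ s → (Φ s).im = 0) (h2 : ∀ y : ℝ, 0 ≤ y → y ≤ b → (Φ (y * I)).im = 0)
    (h3 : 0 < (Φ 0).re) (h4 : ∀ t ∈ Q b, Φ t = 0 ↔ t = y0 * I) (h5 : deriv Φ (y0 * I) ≠ 0)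
    (h6 : ∀ t ∈ Q b, ‖Φ t‖ ^ α ≤ C * Real.exp (-2 * t.re ^ 2)) (h7 : Real.sin (π * α) ≠ 0) :
    ∃ z : ℂ, z.im ≠ 0 ∧ ∫ t : ℝ in Ioi 0, (((Φ t).re ^ α : ℝ) : ℂ) * cos (z * t) = 0 := by
  obtain ⟨Ψ, c1, c2, c3, c4, c5, c6⟩ := exists_pow hα hy hb hS hQ hΦ h1 h2 h3 h4 h5
  have b0 : 0 < b := hy.trans hb
  have hC : ∀ t ∈ Q b, ‖Ψ t‖ ≤ C * Real.exp (-2 * t.re ^ 2) := fun t ht => c3 t ht ▸ h6 t ht
  have C0 : 0 ≤ C := by simpa using (norm_nonneg _).trans (hC 0 ⟨le_rfl, le_rfl, b0.le⟩)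
  have mI : ∀ y : ℝ, 0 ≤ y → y ≤ b → (y * I : ℂ) ∈ Q b := fun y a c => by simp [Q, a, c]
  have mR : ∀ s : ℝ, 0 ≤ s → (s : ℂ) ∈ Q b := fun s a => by simp [Q, a, b0.le]
  have g1 := (integrable_exp_neg_mul_sq (b := 1) one_pos).integrableOn (s := Ioi 0)
  have hm : AEStronglyMeasurable (fun v : ℝ => Ψ v) (volume.restrict (Ioi 0)) :=
    (c1.comp (by fun_prop) fun s hs => mR s (le_of_lt hs)).aestronglyMeasurable measurableSet_Ioi
  have bd : ∀ ρ v : ℝ, v ∈ Ioi 0 → ‖Ψ v‖ * Real.exp (ρ * |v|) ≤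
      C * Real.exp (ρ ^ 2) * Real.exp (-1 * v ^ 2) := fun ρ v hv => by
    refine (mul_le_mul_of_nonneg_right (hC _ (mR v (le_of_lt hv))) (Real.exp_pos _).le).trans ?_
    rw [mul_assoc, mul_assoc, ← Real.exp_add, ← Real.exp_add, ofReal_re]
    refine mul_le_mul_of_nonneg_left (Real.exp_le_exp.2 ?_) C0
    nlinarith [sq_abs v, sq_nonneg (2 * ρ - |v|), sq_nonneg v]
  have hi : ∀ ρ : ℝ, Integrable (fun v : ℝ => ‖Ψ v‖ * Real.exp (ρ * |v|))
      (volume.restrict (Ioi 0)) := fun ρ => (g1.const_mul (C * Real.exp (ρ ^ 2))).mono'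
    (hm.norm.mul (by fun_prop)) ((ae_restrict_iff' measurableSet_Ioi).2 (ae_of_all _ fun v hv => by
      rw [Real.norm_of_nonneg (by positivity)]; exact bd ρ v hv))
  have nb : ∀ (ζ : ℂ) (v : ℝ), ‖Ψ v * cexp (ζ * v)‖ ≤ ‖Ψ v‖ * Real.exp (‖ζ‖ * |v|) := fun ζ v => by
    rw [norm_mul, norm_exp]
    gcongr
    exact (re_le_norm _).trans (by simp)
  have hI : ∀ ζ : ℂ, IntegrableOn (fun v : ℝ => Ψ v * cexp (ζ * v)) (Ioi 0) := fun ζ =>
    (hi ‖ζ‖).mono' (hm.mul (by fun_prop)) (ae_of_all _ (nb ζ))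
  let L : ℂ → ℂ := fun ζ => ∫ v : ℝ in Ioi 0, Ψ v * cexp (ζ * v)
  have Ld : Differentiable ℂ L := Pool.Agent.H.MP_65850b_an.lap _ _ hm hi
  have Lb : ∀ ζ, ‖L ζ‖ ≤ C * (∫ v : ℝ in Ioi 0, Real.exp (-1 * v ^ 2)) * Real.exp (‖ζ‖ ^ 2) :=
    fun ζ => by
    rw [mul_right_comm, ← integral_const_mul]
    exact norm_integral_le_of_norm_le (g1.const_mul _) ((ae_restrict_iff' measurableSet_Ioi).2
      (ae_of_all _ fun v hv => (nb ζ v).trans (bd _ v hv)))
  have hF : ∀ z : ℂ, ∫ t : ℝ in Ioi 0, (((Φ t).re ^ α : ℝ) : ℂ) * cos (z * t) =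
      (L (z * I) + L (-z * I)) / 2 := fun z => by
    rw [← integral_add (hI _) (hI _), ← integral_div]
    refine setIntegral_congr_fun measurableSet_Ioi fun v hv => ?_
    simp only [c4 v (le_of_lt hv), Complex.cos]
    ring_nf
  have hx : ∀ x : ℝ, ‖(L (x * I) + L (-x * I)) / 2‖ = |(L (x * I)).re| := fun x => by
    have : L (-x * I) = (starRingEnd ℂ) (L (x * I)) := by
      rw [← integral_conj]
      refine setIntegral_congr_fun measurableSet_Ioi fun v hv => ?_
      simp [c4 v (le_of_lt hv), ← exp_conj]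
    rw [this, ← re_eq_add_conj, norm_real, Real.norm_eq_abs]
  let p : ℝ → ℝ := fun y => ‖Ψ (y * I)‖
  have cI : ContinuousOn (fun y : ℝ => Ψ (y * I)) (Icc 0 b) :=
    c1.comp (by fun_prop) fun y hy => mI y hy.1 hy.2
  have pi : ∀ (x u v : ℝ), y0 ≤ u → u ≤ v → v ≤ b →
      IntervalIntegrable (fun y => p y * Real.exp (-(y * x))) volume u v := fun x u v a c d =>
    ((cI.norm.mono (by rw [uIcc_of_le c]; exact Icc_subset_Icc (hy.le.trans a) d)).mul
      (by fun_prop)).intervalIntegrable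
  obtain ⟨D, hD⟩ : ∃ D, ∀ x : ℝ, 0 ≤ x → |(L (x * I)).re + Real.sin (π * α) *
      ∫ y in y0..b, p y * Real.exp (-(y * x))| ≤ D * Real.exp (-(b * x)) := ⟨_, fun x hx => by
    refine le_trans (le_of_eq ?_) ((abs_re_le_norm _).trans (shift b0 hx c1 c2 hC (hI _)))
    have ii : ∀ u v, 0 ≤ u → u ≤ v → v ≤ b → IntervalIntegrable
        (fun y : ℝ => Ψ (y * I) * cexp (x * I * (y * I))) volume u v := fun u v a c d =>
      ((cI.mono (by rw [uIcc_of_le c]; exact Icc_subset_Icc a d)).mul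
        (by fun_prop)).intervalIntegrable
    have ee : ∀ y : ℝ, (Ψ (y * I) * cexp (x * I * (y * I))).im =
        (Ψ (y * I)).im * Real.exp (-(y * x)) := fun y => by
      rw [show (x * I * (y * I) : ℂ) = ((-(y * x) : ℝ) : ℂ) by
        push_cast; linear_combination (x * y : ℂ) * I_mul_I, ← ofReal_exp, im_mul_ofReal]
    have im1 : ∀ u v, 0 ≤ u → u ≤ v → v ≤ b →
        (∫ y in u..v, Ψ (y * I) * cexp (x * I * (y * I))).im =
        ∫ y in u..v, (Ψ (y * I)).im * Real.exp (-(y * x)) := fun u v a c d => by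
      simp only [← ee]
      exact (imCLM.intervalIntegral_comp_comm (ii u v a c d)).symm
    rw [sub_re, I_mul_re, sub_neg_eq_add, ← intervalIntegral.integral_add_adjacent_intervals
      (ii 0 y0 le_rfl hy.le hb.le) (ii y0 b hy.le hb.le le_rfl), add_im,
      im1 0 y0 le_rfl hy.le hb.le, im1 y0 b hy.le hb.le le_rfl,
      intervalIntegral.integral_congr (g := fun _ => 0) (a := 0) fun y h => by
        rw [uIcc_of_le hy.le] at h
        simp [c5 y h.1 h.2], intervalIntegral.integral_zero, zero_add,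
      ← intervalIntegral.integral_const_mul]
    congr 2
    refine intervalIntegral.integral_congr fun y h => ?_
    rw [uIcc_of_le hb.le] at h
    simp only [c6 y h.1 h.2, p, c3 _ (mI y (hy.le.trans h.1) h.2), mul_assoc]⟩
  set β := (y0 + b) / 2 with hβ
  have β1 : y0 < β := by linarith
  have β2 : β < b := by linarith
  have κ0 : 0 < ∫ y in y0..β, p y := intervalIntegral.intervalIntegral_pos_of_pos_on
    (by simpa using pi 0 y0 β le_rfl β1.le β2.le) (fun y h => by
      have m := mI y (hy.le.trans h.1.le) (h.2.trans β2).le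
      simp only [p, c3 _ m]
      exact Real.rpow_pos_of_pos (norm_pos_iff.2 fun e => h.1.ne' (by simpa using (h4 _ m).1 e)) _)
    β1
  have J1 : ∀ x : ℝ, 0 ≤ x → (∫ y in y0..β, p y) * Real.exp (-(β * x)) ≤
      ∫ y in y0..b, p y * Real.exp (-(y * x)) := fun x hx => by
    rw [← intervalIntegral.integral_mul_const]
    refine le_trans (intervalIntegral.integral_mono_on β1.le (IntervalIntegrable.mul_const
      (by simpa using pi 0 y0 β le_rfl β1.le β2.le) _) (pi x y0 β le_rfl β1.le β2.le)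
      fun y h => ?_) (intervalIntegral.integral_mono_interval le_rfl β1.le β2.le
        (ae_of_all _ fun y => by positivity) (pi x y0 b le_rfl hb.le le_rfl))
    have := h.2
    gcongr
  have J2 : ∀ x : ℝ, 0 ≤ x → |∫ y in y0..b, p y * Real.exp (-(y * x))| ≤
      (∫ y in y0..b, p y) * Real.exp (-(y0 * x)) := fun x hx => by
    rw [← intervalIntegral.integral_mul_const, abs_of_nonneg
      (intervalIntegral.integral_nonneg hb.le fun y _ => by positivity)]
    refine intervalIntegral.integral_mono_on hb.le (pi x y0 b le_rfl hb.le le_rfl)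
      (IntervalIntegrable.mul_const (by simpa using pi 0 y0 b le_rfl hb.le le_rfl) _) fun y h => ?_
    have := h.1
    gcongr
  have te : ∀ c d : ℝ, 0 < c → Tendsto (fun x : ℝ => d * Real.exp (-(c * x))) atTop (𝓝 0) :=
    fun c d hc => by
      simpa using (Real.tendsto_exp_neg_atTop_nhds_zero.comp
        (tendsto_id.const_mul_atTop hc)).const_mul d
  simp only [hF]
  have s0 : 0 < |Real.sin (π * α)| := abs_pos.2 h7
  refine nonreal (f := fun z => (L (z * I) + L (-z * I)) / 2) (by fun_prop)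
    ⟨C * ∫ v : ℝ in Ioi 0, Real.exp (-1 * v ^ 2), fun z => ?_⟩ (fun z => by simp [add_comm]) ?_
    (κ := |Real.sin (π * α)| * (∫ y in y0..β, p y) / 2) (β := β) (by positivity) ?_
  · have a1 := Lb (z * I)
    have a2 := Lb (-z * I)
    have a3 := norm_add_le (L (z * I)) (L (-z * I))
    rw [norm_mul, norm_I, mul_one] at a1 a2
    rw [norm_neg] at a2
    rw [norm_div, Complex.norm_ofNat]
    linarith
  · simp only [hx]
    refine squeeze_zero' (Eventually.of_forall fun _ => abs_nonneg _) ((eventually_ge_atTop 0).mono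
      fun x h => ?_) (by simpa using (te b D b0).add (te y0 (∫ y in y0..b, p y) hy))
    have a1 := hD x h
    have a2 := J2 x h
    have a3 := abs_sub ((L (x * I)).re + Real.sin (π * α) *
      ∫ y in y0..b, p y * Real.exp (-(y * x))) (Real.sin (π * α) *
      ∫ y in y0..b, p y * Real.exp (-(y * x)))
    rw [add_sub_cancel_right, abs_mul] at a3
    have a4 := mul_le_of_le_one_left (abs_nonneg (∫ y in y0..b, p y * Real.exp (-(y * x))))
      (Real.abs_sin_le_one (π * α))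
    linarith
  · simp only [hx]
    filter_upwards [eventually_ge_atTop 0, (te (b - β) D (by linarith)).eventually
      (ge_mem_nhds (half_pos (mul_pos s0 κ0)))]
      with x h h'
    have a1 := hD x h
    have a2 := mul_le_mul_of_nonneg_left ((J1 x h).trans (le_abs_self _)) s0.le
    have a3 := abs_sub ((L (x * I)).re + Real.sin (π * α) *
      ∫ y in y0..b, p y * Real.exp (-(y * x))) (L (x * I)).re
    rw [add_sub_cancel_left, abs_mul] at a3
    have a4 := mul_le_mul_of_nonneg_right h' (Real.exp_pos (-(β * x))).le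
    rw [mul_assoc, ← Real.exp_add, show -((b - β) * x) + -(β * x) = -(b * x) by ring] at a4
    linarith

end Pool.Agent.H.MP_c1ac71_an
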