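import Pool.Agent.H.MP_c1ac71_an.B
import Pool.Agent.H.MP_c1ac71_an.C

open Complex Filter Topology Set MeasureTheory
open scoped Real

namespace Pool.Agent.H.MP_c1ac71_an

/-- the terms of the kernel at a complex argument -/
noncomputable def term (n : ℕ) (t : ℂ) : ℂ :=
  (2 * (n + 1) ^ 4 * π ^ 2 * cexp (9 * t) - 3 * (n + 1) ^ 2 * π * cexp (5 * t)) *
    cexp (-(n + 1) ^ 2 * π * cexp (4 * t))

/-- the kernel at a complex argument -/
noncomputable def Ph (t : ℂ) : ℂ := ∑' n, term n t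

/-- the strip -/
def St : Set ℂ := {t | 0 < (cexp (4 * t)).re ∧ |t.im| < π / 4}

/-- the even theta kernel -/
noncomputable def G (t : ℂ) : ℂ := cexp t * jacobiTheta (I * cexp (4 * t))

theorem St_open : IsOpen St :=
  IsOpen.and (isOpen_lt continuous_const (by fun_prop)) (isOpen_lt (by fun_prop) continuous_const)

theorem hs_congr {f g : ℕ → ℂ} {a b : ℂ} (h : HasSum f a) (e : ∀ n, g n = f n) (e' : b = a) :
    HasSum g b := by
  rwa [e', funext e]

theorem G_diff : DifferentiableOn ℂ G St := fun t ht =>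
  (differentiableAt_exp.mul ((differentiableAt_jacobiTheta (by simpa using ht.1)).comp t
    (f := fun t => I * cexp (4 * t)) (by fun_prop))).differentiableWithinAt

theorem G_even {t : ℂ} (ht : t ∈ St) : G (-t) = G t := by
  have h := jacobiTheta_S_smul ⟨I * cexp (4 * t), by simpa using ht.1⟩
  rw [UpperHalfPlane.modular_S_smul] at h
  have h2 := abs_lt.1 ht.2
  have e1 : (-I * (I * cexp (4 * t))) ^ (1 / 2 : ℂ) = cexp (2 * t) := by
    rw [show -I * (I * cexp (4 * t)) = cexp (4 * t) by linear_combination (-cexp (4 * t)) * I_mul_I,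
      cpow_def_of_ne_zero (exp_ne_zero _), log_exp (by simp; linarith) (by simp; linarith)]
    ring_nf
  have e2 : (-(I * cexp (4 * t)))⁻¹ = I * cexp (4 * -t) := by
    rw [mul_neg, Complex.exp_neg, inv_neg, mul_inv, inv_I]
    ring
  simp only [UpperHalfPlane.coe_mk, e1, e2] at h
  rw [G, G, h, ← mul_assoc, ← Complex.exp_add]
  ring_nf

theorem hasSum_term {t : ℂ} (ht : t ∈ St) :
    HasSum (fun n => term n t) ((deriv (deriv G) t - G t) / 16) := by
  let U : Set ℂ := St ∩ {s | (cexp (4 * t)).re / 2 < (cexp (4 * s)).re ∧ s.re < t.re + 1}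
  have hU : IsOpen U := St_open.inter (IsOpen.and (isOpen_lt continuous_const (by fun_prop))
    (isOpen_lt (by fun_prop) continuous_const))
  have tU : t ∈ U := ⟨ht, half_lt_self ht.1, lt_add_one _⟩
  let f : ℕ → ℂ → ℂ := fun n s => cexp (s - (n + 1) ^ 2 * π * cexp (4 * s))
  let f1 : ℕ → ℂ → ℂ := fun n s => f n s * (1 - (n + 1) ^ 2 * π * (cexp (4 * s) * 4))
  have e4 : ∀ s, HasDerivAt (fun s => cexp (4 * s)) (cexp (4 * s) * 4) s := fun s => by
    simpa using ((hasDerivAt_id s).const_mul 4).cexp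
  have d0 : ∀ n s, HasDerivAt (f n) (f1 n s) s := fun n s =>
    ((hasDerivAt_id s).sub ((e4 s).const_mul _)).cexp
  have d1 : ∀ n s, HasDerivAt (f1 n) (8 * term n s + f n s) s := fun n s => by
    refine ((d0 n s).mul ((((e4 s).mul_const 4).const_mul
      ((n + 1) ^ 2 * π : ℂ)).const_sub 1)).congr_deriv ?_
    have a : cexp (9 * s) = cexp s * cexp (4 * s) * cexp (4 * s) := by
      rw [← Complex.exp_add, ← Complex.exp_add]; ring_nf
    have b : cexp (5 * s) = cexp s * cexp (4 * s) := by rw [← Complex.exp_add]; ring_nf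
    have c : f n s = cexp s * cexp (-(n + 1) ^ 2 * π * cexp (4 * s)) := by
      rw [← Complex.exp_add]; simp only [f]; ring_nf
    simp only [f1, term, a, b, c]
    ring
  have hs : Summable fun n : ℕ => Real.exp (t.re + 1) *
      Real.exp (-(π * ((cexp (4 * t)).re / 2))) ^ n :=
    (summable_geometric_of_lt_one (Real.exp_pos _).le (Real.exp_lt_one_iff.2 (by
      have := ht.1
      have := Real.pi_pos
      simp only [Left.neg_neg_iff]
      positivity))).mul_left _
  have T0 := (tendstoUniformlyOn_tsum (f := f) (s := U) hs fun n s h => by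
    rw [norm_exp, ← Real.exp_nat_mul, ← Real.exp_add, Real.exp_le_exp, sub_re,
      show ((n + 1) ^ 2 * π : ℂ) = (((n + 1) ^ 2 * π : ℝ) : ℂ) by push_cast; ring, re_ofReal_mul]
    have h0 : (0 : ℝ) ≤ n := n.cast_nonneg
    have h1 : (n : ℝ) * (π * ((cexp (4 * t)).re / 2)) ≤ (n + 1) ^ 2 * π * (cexp (4 * s)).re := by
      rw [mul_assoc]
      have := ht.1
      have := h.2.1.le
      gcongr
      nlinarith
    linarith [h.2.2]).tendstoLocallyUniformlyOn
  have D1 : ∀ T : Finset ℕ, deriv (fun s => ∑ n ∈ T, f n s) = fun s => ∑ n ∈ T, f1 n s :=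
    fun T => funext fun s => (HasDerivAt.fun_sum fun n _ => d0 n s).deriv
  have D2 : ∀ T : Finset ℕ, deriv (fun s => ∑ n ∈ T, f1 n s) =
      fun s => ∑ n ∈ T, (8 * term n s + f n s) :=
    fun T => funext fun s => (HasDerivAt.fun_sum fun n _ => d1 n s).deriv
  have T1 := T0.deriv (Eventually.of_forall fun T s _ => (HasDerivAt.fun_sum fun n _ =>
    d0 n s).differentiableAt.differentiableWithinAt) hU
  simp only [Function.comp_def, D1] at T1
  have T2 := T1.deriv (Eventually.of_forall fun T s _ => (HasDerivAt.fun_sum fun n _ =>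
    d1 n s).differentiableAt.differentiableWithinAt) hU
  simp only [Function.comp_def, D2] at T2
  have hf : ∀ s ∈ St, HasSum (fun n => f n s) ((G s - cexp s) / 2) := fun s h => by
    refine hs_congr ((hasSum_nat_jacobiTheta (τ := I * cexp (4 * s))
      (by simpa using h.1)).mul_left (cexp s)) (fun n => ?_) ?_
    · rw [← Complex.exp_add]
      simp only [f]
      congr 1
      linear_combination (-(n + 1) ^ 2 * π * cexp (4 * s)) * I_mul_I
    · rw [G]; ring
  have E0 : ∀ s ∈ St, (fun s => ∑' n, f n s) =ᶠ[𝓝 s] fun s => (G s - cexp s) / 2 := fun s h =>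
    (St_open.eventually_mem h).mono fun s h => (hf s h).tsum_eq
  have G1 : DifferentiableOn ℂ (deriv G) St := G_diff.deriv St_open
  have E1 : deriv (fun s => ∑' n, f n s) =ᶠ[𝓝 t] fun s => (deriv G s - cexp s) / 2 :=
    (St_open.eventually_mem ht).mono fun s h => by
      rw [(E0 s h).deriv_eq]
      exact (((G_diff.differentiableAt (St_open.mem_nhds h)).hasDerivAt.sub
        (Complex.hasDerivAt_exp s)).div_const 2).deriv
  have E2 : deriv (deriv fun s => ∑' n, f n s) t = (deriv (deriv G) t - cexp t) / 2 := by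
    rw [E1.deriv_eq]
    exact (((G1.differentiableAt (St_open.mem_nhds ht)).hasDerivAt.sub
      (Complex.hasDerivAt_exp t)).div_const 2).deriv
  have H : HasSum (fun n => 8 * term n t + f n t) ((deriv (deriv G) t - cexp t) / 2) :=
    E2 ▸ T2.tendsto_at tU
  exact hs_congr ((H.sub (hf t ht)).div_const 8) (fun n => by ring) (by ring)

theorem Ph_eq {t : ℂ} (ht : t ∈ St) : Ph t = (deriv (deriv G) t - G t) / 16 :=
  (hasSum_term ht).tsum_eq

theorem Ph_diff : DifferentiableOn ℂ Ph St :=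
  ((((G_diff.deriv St_open).deriv St_open).sub G_diff).div_const 16).congr fun _ h => Ph_eq h

theorem St_neg {t : ℂ} (ht : t ∈ St) : -t ∈ St := by
  refine ⟨?_, by simpa using ht.2⟩
  rw [mul_neg, Complex.exp_neg, inv_re]
  exact div_pos ht.1 (normSq_pos.2 (exp_ne_zero _))

theorem Ph_even {t : ℂ} (ht : t ∈ St) : Ph (-t) = Ph t := by
  have E0 : ∀ s ∈ St, G =ᶠ[𝓝 s] fun s => G (-s) := fun s h =>
    (St_open.eventually_mem h).mono fun s h => (G_even h).symm
  have E1 : deriv G =ᶠ[𝓝 t] fun s => -deriv G (-s) :=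
    (St_open.eventually_mem ht).mono fun s h => by rw [(E0 s h).deriv_eq, deriv_comp_neg]
  rw [Ph_eq ht, Ph_eq (St_neg ht), G_even ht, E1.deriv_eq, deriv.fun_neg, deriv_comp_neg, neg_neg]

theorem Ph_conj (t : ℂ) : (starRingEnd ℂ) (Ph t) = Ph ((starRingEnd ℂ) t) := by
  rw [Ph, Ph, conj_tsum]
  refine tsum_congr fun n => ?_
  simp [term, ← exp_conj, map_ofNat]

theorem Ph_K {t : ℂ} (ht : t ∈ St) (h : 1 ≤ ‖cexp (4 * t)‖) :
    Ph t = π * cexp (5 * t) * A (cexp (4 * t)) * cexp (-(4 * π * cexp (4 * t))) *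
      K (cexp (4 * t)) := by
  have hA : A (cexp (4 * t)) ≠ 0 := norm_pos_iff.1 (by linarith [A_lb h])
  have a : cexp (9 * t) = cexp (5 * t) * cexp (4 * t) := by rw [← Complex.exp_add]; ring_nf
  rw [Ph, ← (hasSum_term ht).summable.sum_add_tsum_nat_add 2, K, mul_add, ← tsum_mul_left]
  congr 1
  · simp only [Finset.sum_range_succ, Finset.range_zero, Finset.sum_empty, term, a]
    generalize cexp (4 * t) = u at *
    have b : cexp (-((0 : ℕ) + 1) ^ 2 * π * u) = cexp (-(4 * π * u)) * cexp (3 * π * u) := by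
      rw [← Complex.exp_add]; push_cast; ring_nf
    have c : cexp (-((1 : ℕ) + 1) ^ 2 * π * u) = cexp (-(4 * π * u)) := by push_cast; ring_nf
    rw [b, c]
    field_simp
    unfold A
    push_cast
    ring
  · refine tsum_congr fun k => ?_
    simp only [term, g, a]
    generalize cexp (4 * t) = u at *
    have b : cexp (-((k + 2 : ℕ) + 1) ^ 2 * π * u) =
        cexp (-(4 * π * u)) * cexp (-(π * ((k + 3) ^ 2 - 4)) * u) := by
      rw [← Complex.exp_add]; push_cast; ring_nf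
    rw [b]
    field_simp
    unfold A
    push_cast
    ring

/-- the height of the contour -/
noncomputable def bb : ℝ := Real.arctan (1 / 3)

theorem bb_pos : 0 < bb := Real.arctan_pos.2 (by norm_num)

theorem bb_lt : bb < π / 4 := by
  rw [← Real.arctan_one]
  exact Real.arctan_strictMono (by norm_num)

theorem exp_bb : ∃ c : ℝ, 0 < c ∧ c ^ 2 = 1 / 10 ∧ cexp (bb * I) = c * (3 + I) := by
  have h : 0 < √(1 + (1 / 3) ^ 2) := by positivity
  refine ⟨1 / (3 * √(1 + (1 / 3) ^ 2)), by positivity, ?_, ?_⟩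
  · rw [div_pow, mul_pow, Real.sq_sqrt (by positivity)]
    norm_num
  · rw [exp_mul_I, ← ofReal_cos, ← ofReal_sin, bb, Real.cos_arctan, Real.sin_arctan]
    generalize √(1 + (1 / 3) ^ 2) = r at h
    have : (r : ℂ) ≠ 0 := by exact_mod_cast h.ne'
    push_cast
    field_simp

theorem exp4_bb : cexp (4 * (bb * I)) = 7 / 25 + 24 / 25 * I := by
  obtain ⟨c, -, h1, h2⟩ := exp_bb
  have h3 : (c : ℂ) ^ 2 = 1 / 10 := by rw [← ofReal_pow, h1]; push_cast; ring
  rw [show (4 : ℂ) = (4 : ℕ) by norm_num, Complex.exp_nat_mul, h2, mul_pow,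
    show (c : ℂ) ^ 4 = (c ^ 2) ^ 2 by ring, h3]
  linear_combination (1 / 100 * (I ^ 2 + 12 * I + 53)) * I_sq

theorem sector {t : ℂ} (ht : t ∈ Q bb) : ‖cexp (4 * t)‖ = Real.exp (4 * t.re) ∧
    1 ≤ ‖cexp (4 * t)‖ ∧ 0.28 * ‖cexp (4 * t)‖ ≤ (cexp (4 * t)).re ∧ 0 ≤ (cexp (4 * t)).im ∧
    t ∈ St := by
  obtain ⟨h1, h2, h3⟩ := ht
  have b := bb_lt
  have n : ‖cexp (4 * t)‖ = Real.exp (4 * t.re) := by rw [norm_exp]; simp
  have c : Real.cos (4 * bb) = 0.28 := by
    have := congrArg re exp4_bb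
    rw [exp_re] at this
    norm_num at this ⊢
    exact this
  have c2 : 0.28 ≤ Real.cos (4 * t.im) :=
    c ▸ Real.cos_le_cos_of_nonneg_of_le_pi (by linarith) (by linarith) (by linarith)
  have r : 0.28 * ‖cexp (4 * t)‖ ≤ (cexp (4 * t)).re := by
    rw [n, exp_re, mul_comm]
    simpa using mul_le_mul_of_nonneg_left c2 (Real.exp_pos (4 * t.re)).le
  have o : 1 ≤ ‖cexp (4 * t)‖ := n ▸ Real.one_le_exp (by linarith)
  refine ⟨n, o, r, ?_, by linarith, by rw [abs_of_nonneg h2]; linarith⟩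
  rw [exp_im]
  exact mul_nonneg (Real.exp_pos _).le (Real.sin_nonneg_of_nonneg_of_le_pi (by simpa using h2)
    (by simp; linarith))

theorem Ph_zero {t : ℂ} (ht : t ∈ Q bb) : (Ph t = 0 ↔ K (cexp (4 * t)) = 0) ∧
    (K (cexp (4 * t)) = 0 → (cexp (4 * t)).re < 0.305) := by
  obtain ⟨-, a, -, -, c⟩ := sector ht
  have hA : A (cexp (4 * t)) ≠ 0 := norm_pos_iff.1 (by linarith [A_lb a])
  refine ⟨by simp [Ph_K c a, hA], fun h => not_le.1 fun h2 => ?_⟩
  simpa [h] using K_far a h2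

theorem Ph_real (s : ℝ) : (Ph s).im = 0 := conj_eq_iff_im.1 (by rw [Ph_conj, conj_ofReal])

theorem Ph_imag {y : ℝ} (h0 : 0 ≤ y) (h : y ≤ bb) : (Ph (y * I)).im = 0 :=
  conj_eq_iff_im.1 (by
    rw [Ph_conj, map_mul, conj_ofReal, conj_I, mul_neg]
    exact Ph_even (sector (t := y * I) (by simp [Q, h0, h])).2.2.2.2)

theorem Ph_pos : 0 < (Ph 0).re := by
  have z : (0 : ℂ) ∈ Q bb := ⟨le_rfl, le_rfl, bb_pos.le⟩
  have h := K_far (u := 1) (by simp) (by norm_num)
  have h1 := (abs_lt.1 ((abs_re_le_norm _).trans_lt h)).1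
  rw [norm_e3, sub_re, show (3 * π * 1 : ℂ) = ((3 * π * 1 : ℝ) : ℂ) by push_cast; ring,
    exp_ofReal_re, one_re] at h1
  rw [Ph_K (sector z).2.2.2.2 (by simp), mul_zero, mul_zero, Complex.exp_zero,
    show (π * 1 * A 1 * cexp (-(4 * π * 1)) : ℂ) =
      ((π * (2 * π - 3) * Real.exp (-(4 * π)) : ℝ) : ℂ) by unfold A; push_cast; ring_nf,
    re_ofReal_mul]
  have := Real.pi_gt_three
  exact mul_pos (mul_pos (mul_pos Real.pi_pos (by linarith)) (Real.exp_pos _)) (by linarith)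

theorem Ph_le {t : ℂ} (ht : t ∈ Q bb) :
    ‖Ph t‖ ≤ 8000 * Real.exp (9 * t.re - 8 * t.re ^ 3) := by
  obtain ⟨n, a, r, -, c⟩ := sector ht
  have p1 := Real.pi_gt_three
  have p2 := Real.pi_le_four
  have k := K_le a (by linarith)
  have hA : ‖A (cexp (4 * t))‖ ≤ 10 * Real.exp (4 * t.re) := by
    refine (norm_sub_le _ _).trans ?_
    rw [norm_mul, norm_mul, norm_real, Real.norm_of_nonneg Real.pi_pos.le, ← n]
    simp only [Complex.norm_ofNat]
    nlinarith [Real.pi_lt_d2]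
  have e3 := Real.pow_div_factorial_le_exp (4 * t.re) (by linarith [ht.1]) 3
  rw [Ph_K c a, norm_mul, norm_mul, norm_mul, norm_mul, norm_real, norm_exp, norm_exp,
    Real.norm_of_nonneg Real.pi_pos.le, show (-(4 * π * cexp (4 * t)) : ℂ) =
      ((-(4 * π) : ℝ) : ℂ) * cexp (4 * t) by push_cast; ring, re_ofReal_mul]
  calc _ ≤ 4 * Real.exp (5 * t).re * (10 * Real.exp (4 * t.re)) *
        Real.exp (-(4 * π) * (cexp (4 * t)).re) * (200 * Real.exp (3 * π * (cexp (4 * t)).re)) := by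
        gcongr
    _ = 8000 * (Real.exp (5 * t).re * Real.exp (4 * t.re) *
        Real.exp (-(4 * π) * (cexp (4 * t)).re) * Real.exp (3 * π * (cexp (4 * t)).re)) := by ring
    _ ≤ _ := by
        rw [← Real.exp_add, ← Real.exp_add, ← Real.exp_add]
        refine mul_le_mul_of_nonneg_left (Real.exp_le_exp.2 ?_) (by norm_num)
        have : 0 ≤ t.re ^ 3 := pow_nonneg ht.1 3
        rw [n] at r
        norm_num [Nat.factorial] at e3 ⊢
        nlinarith

theorem Ph_bd {α : ℝ} (hα : 0 < α) :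
    ∃ C, ∀ t ∈ Q bb, ‖Ph t‖ ^ α ≤ C * Real.exp (-2 * t.re ^ 2) := by
  refine ⟨8000 ^ α * Real.exp (9 * α + 1 / (2 * α ^ 2)), fun t ht => ?_⟩
  refine (Real.rpow_le_rpow (norm_nonneg _) (Ph_le ht) hα.le).trans ?_
  rw [Real.mul_rpow (by norm_num) (Real.exp_pos _).le, ← Real.exp_mul, mul_assoc, ← Real.exp_add]
  refine mul_le_mul_of_nonneg_left (Real.exp_le_exp.2 ?_) (by positivity)
  have h0 := ht.1
  generalize t.re = s at h0
  have a1 : 9 * s ≤ 4 * s ^ 3 + 9 := by nlinarith [mul_nonneg h0 (sq_nonneg (s - 1)), sq_nonneg (s - 1)]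
  have a2 : 2 * s ^ 2 ≤ 4 * α * s ^ 3 + 1 / (2 * α ^ 2) := by
    rcases le_total 1 (2 * α * s) with h | h
    · have : 0 ≤ 1 / (2 * α ^ 2) := by positivity
      nlinarith [mul_le_mul_of_nonneg_left h (sq_nonneg s)]
    · have : 2 * s ^ 2 ≤ 1 / (2 * α ^ 2) := by
        rw [le_div_iff₀ (by positivity)]
        nlinarith [mul_nonneg hα.le h0]
      have : 0 ≤ 4 * α * s ^ 3 := by positivity
      linarith
  nlinarith

theorem Ph_neg : (Ph (bb * I)).re < 0 := by
  have m : (bb * I : ℂ) ∈ Q bb := by simp [Q, bb_pos.le]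
  obtain ⟨-, a, -, -, c⟩ := sector m
  obtain ⟨c0, k0, -, k2⟩ := exp_bb
  have p1 := Real.pi_gt_d4
  have p2 := Real.pi_lt_d4
  have e5 : cexp (5 * (bb * I)) = c0 ^ 5 * (-12 + 316 * I) := by
    rw [show (5 : ℂ) = (5 : ℕ) by norm_num, Complex.exp_nat_mul, k2, mul_pow]
    linear_combination (c0 : ℂ) ^ 5 * (I ^ 3 + 15 * I ^ 2 + 89 * I + 255) * I_sq
  rw [Ph_K c a, e5, K]
  rw [exp4_bb] at *
  set u : ℂ := 7 / 25 + 24 / 25 * I with hu
  have ur : u.re = 7 / 25 := by simp [hu]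
  have ui : u.im = 24 / 25 := by simp [hu]
  have a2 : ‖A u‖ ^ 2 = (14 * π / 25 - 3) ^ 2 + (48 * π / 25) ^ 2 := by
    rw [Complex.sq_norm, normSq_apply]; simp [A, ur, ui]; ring
  have a3 : 6.15 ≤ ‖A u‖ := (abs_le_of_sq_le_sq' (by rw [a2]; nlinarith) (norm_nonneg _)).2
  have a4 : ‖A u‖ ≤ 6.16 := (abs_le_of_sq_le_sq' (by rw [a2]; nlinarith) (by norm_num)).2
  have hA : A u ≠ 0 := norm_pos_iff.1 (by linarith)
  have t1 := tail_le (by norm_num) a3 (by rw [ur]; norm_num)
  have h81 : Real.exp (-(5 * π * u.re)) ≤ 1 / 81 := exp_neg_le (by norm_num)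
    (exp_lb 4.398 (by norm_num) (by rw [ur]; nlinarith)
      (by norm_num [Finset.sum_range_succ, Nat.factorial]))
  have t2 : ‖∑' k, g k u‖ ≤ 1.5062 := by norm_num at t1 ⊢; linarith
  generalize ∑' k, g k u = T at t2
  have f1 : cexp (-(4 * π * u)) * cexp (3 * π * u) =
      -(Real.exp (-(7 * π / 25)) * cexp ((π / 25 : ℝ) * I)) := by
    rw [← Complex.exp_add, ofReal_exp, ← Complex.exp_add, ← exp_sub_pi_mul_I, hu]
    push_cast
    ring_nf
  have f4 : cexp (-(4 * π * u)) = Real.exp (-(7 * π / 25)) * (Real.exp (-(21 * π / 25)) *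
      cexp ((4 * π / 25 : ℝ) * I)) := by
    rw [ofReal_exp, ofReal_exp, ← Complex.exp_add, ← Complex.exp_add,
      ← exp_periodic (-(4 * π * u)), ← exp_periodic (-(4 * π * u) + _), hu]
    push_cast
    ring_nf
  have e : π * (c0 ^ 5 * (-12 + 316 * I)) * A u * cexp (-(4 * π * u)) *
      (cexp (3 * π * u) + 16 + 36 / A u + T) = ((π * c0 ^ 5 * Real.exp (-(7 * π / 25)) : ℝ) : ℂ) *
      (-((-12 + 316 * I) * A u * cexp ((π / 25 : ℝ) * I)) + Real.exp (-(21 * π / 25)) *
        ((-12 + 316 * I) * (16 * A u + 36) * cexp ((4 * π / 25 : ℝ) * I) +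
          (-12 + 316 * I) * A u * cexp ((4 * π / 25 : ℝ) * I) * T)) := by
    rw [show π * (c0 ^ 5 * (-12 + 316 * I)) * A u * cexp (-(4 * π * u)) *
      (cexp (3 * π * u) + 16 + 36 / A u + T) = π * (c0 ^ 5 * (-12 + 316 * I)) *
        (A u * (cexp (-(4 * π * u)) * cexp (3 * π * u)) +
          cexp (-(4 * π * u)) * (16 * A u + 36 + A u * T)) by field_simp; ring, f1, f4,
      ofReal_mul, ofReal_mul, ofReal_pow]
    ring
  rw [e, re_ofReal_mul]
  refine mul_neg_of_pos_of_neg (by positivity) ?_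
  have x3 : ((-12 + 316 * I) * A u * cexp ((4 * π / 25 : ℝ) * I) * T).re ≤ 2935 := by
    refine (re_le_norm _).trans ?_
    rw [norm_mul, norm_mul, norm_mul, norm_exp_ofReal_mul_I]
    have : ‖(-12 + 316 * I : ℂ)‖ ≤ 316.3 := (abs_le_of_sq_le_sq' (by
      rw [Complex.sq_norm, normSq_apply]; norm_num) (by norm_num)).2
    calc _ ≤ (316.3 * 6.16 * 1 * 1.5062 : ℝ) := by gcongr
      _ ≤ _ := by norm_num
  have l3 : 0.0712 ≤ Real.exp (-(21 * π / 25)) := by
    have b1 := Real.exp_bound' (x := 0.639) (by norm_num) (by norm_num) (n := 6) (by norm_num)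
    have b2 := Real.exp_one_lt_d9
    have b3 : Real.exp (21 * π / 25) ≤ Real.exp 1 * Real.exp 1 * Real.exp 0.639 := by
      rw [← Real.exp_add, ← Real.exp_add, Real.exp_le_exp]
      linarith
    have b4 : Real.exp 0.639 ≤ 1.895 := b1.trans (by
      norm_num [Finset.sum_range_succ, Nat.factorial])
    have b5 : Real.exp 1 * Real.exp 1 * Real.exp 0.639 ≤ 2.7182818286 * 2.7182818286 * 1.895 := by
      gcongr
    rw [Real.exp_neg, le_inv_comm₀ (by norm_num) (Real.exp_pos _)]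
    norm_num at b5 ⊢
    linarith
  have c1 : Real.cos (π / 25) ≤ 0.99212 := by
    have := (abs_le.1 (Real.cos_bound (x := π / 25) (by rw [abs_of_pos] <;> linarith))).2
    rw [abs_of_pos (by linarith)] at this
    have h2 : (π / 25) ^ 4 ≤ 0.126 ^ 4 := by gcongr; linarith
    nlinarith
  have s1 : 0.1251 ≤ Real.sin (π / 25) := by
    have := Real.sin_gt_sub_cube (x := π / 25) (by linarith)
    have h2 : (π / 25) ^ 3 ≤ 0.126 ^ 3 := by gcongr; linarith
    nlinarith
  have c4 : 0.8736 ≤ Real.cos (4 * π / 25) := by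
    have := Real.one_sub_sq_div_two_le_cos (x := 4 * π / 25)
    nlinarith
  have s4 : 0.4708 ≤ Real.sin (4 * π / 25) := by
    have := Real.sin_gt_sub_cube (x := 4 * π / 25) (by linarith)
    have h2 : (4 * π / 25) ^ 3 ≤ 0.5027 ^ 3 := by gcongr; linarith
    nlinarith
  have c0' : 0 ≤ Real.cos (π / 25) := Real.cos_nonneg_of_mem_Icc ⟨by linarith, by linarith⟩
  have x1 : (-((-12 + 316 * I) * A u * cexp ((π / 25 : ℝ) * I))).re ≤ 1818.5 := by
    rw [neg_re, mul_re, exp_ofReal_mul_I_re, exp_ofReal_mul_I_im]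
    simp [A, ur, ui]
    nlinarith
  have x2 : ((-12 + 316 * I) * (16 * A u + 36) * cexp ((4 * π / 25 : ℝ) * I)).re ≤ -28600 := by
    rw [mul_re, exp_ofReal_mul_I_re, exp_ofReal_mul_I_im]
    simp [A, ur, ui]
    nlinarith
  rw [add_re, re_ofReal_mul, add_re]
  nlinarith

theorem main {α : ℝ} (hα : 0 < α) (h : Real.sin (π * α) ≠ 0) :
    ∃ z : ℂ, z.im ≠ 0 ∧ ∫ t : ℝ in Ioi 0, (((Ph t).re ^ α : ℝ) : ℂ) * cos (z * t) = 0 := by
  have mI : ∀ y : ℝ, 0 ≤ y → y ≤ bb → (y * I : ℂ) ∈ Q bb := fun y a c => by simp [Q, a, c]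
  have hQ : Q bb ⊆ St := fun t ht => (sector ht).2.2.2.2
  obtain ⟨y0, ⟨hy, hb⟩, h0⟩ : (0 : ℝ) ∈ (fun y : ℝ => (Ph (y * I)).re) '' Ioo 0 bb :=
    intermediate_value_Ioo' bb_pos.le (continuous_re.comp_continuousOn
      (Ph_diff.continuousOn.comp (by fun_prop) fun y h => hQ (mI y h.1 h.2)))
      ⟨Ph_neg, by simpa using Ph_pos⟩
  have m0 := mI y0 hy.le hb.le
  have z0 : Ph (y0 * I) = 0 := Complex.ext h0 (Ph_imag hy.le hb.le)
  have k0 := (Ph_zero m0).1.1 z0
  have mR : ∀ t ∈ Q bb, (cexp (4 * t)).re ≤ 0.305 → cexp (4 * t) ∈ R := fun t ht h =>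
    ⟨(sector ht).2.1, (sector ht).2.2.1, (sector ht).2.2.2.1, h⟩
  have r0 := (Ph_zero m0).2 k0
  obtain ⟨C, hC⟩ := Ph_bd hα
  refine abstract hα hy hb St_open hQ Ph_diff (fun s _ => Ph_real s) (fun y => Ph_imag) Ph_pos
    (fun t ht => ⟨fun e => ?_, fun e => e ▸ z0⟩) (fun e => ?_) hC h
  · have k1 := (Ph_zero ht).1.1 e
    have := K_lip (mR t ht ((Ph_zero ht).2 k1).le) (mR _ m0 r0.le)
    rw [k1, k0, sub_self, norm_zero] at this
    have e2 : cexp (4 * t) = cexp (4 * (y0 * I)) :=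
      sub_eq_zero.1 (norm_le_zero_iff.1 (by linarith))
    have b := bb_lt
    have := Real.pi_pos
    exact mul_left_cancel₀ (by norm_num : (4 : ℂ) ≠ 0) (exp_inj_of_neg_pi_lt_of_le_pi (by simp; linarith [ht.2.1])
      (by simp; linarith [ht.2.2]) (by simp; linarith) (by simp; linarith) e2)
  · let P : ℂ → ℂ := fun t => π * cexp (5 * t) * A (cexp (4 * t)) * cexp (-(4 * π * cexp (4 * t)))
    have P0 : P (y0 * I) ≠ 0 := by
      have hA : A (cexp (4 * (y0 * I))) ≠ 0 := norm_pos_iff.1 (by linarith [A_lb (sector m0).2.1])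
      simp [P, hA]
    have l : Tendsto (fun y : ℝ => (y * I : ℂ)) (𝓝[>] y0) (𝓝[≠] (y0 * I)) :=
      tendsto_nhdsWithin_iff.2 ⟨(Continuous.tendsto (by fun_prop) y0).mono_left nhdsWithin_le_nhds,
        eventually_nhdsWithin_of_forall fun y hy e => (ne_of_gt hy) (by simpa using e)⟩
    have d1 := (Ph_diff.differentiableAt (St_open.mem_nhds (hQ m0))).hasDerivAt
    rw [e] at d1
    have d2 : HasDerivAt (fun s => cexp (4 * s)) (cexp (4 * (y0 * I)) * 4) (y0 * I) := by
      simpa using ((hasDerivAt_id (y0 * I : ℂ)).const_mul 4).cexp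
    have cP : Continuous P := by unfold P A; fun_prop
    have t1 := (((cP.tendsto _).comp (l.mono_right nhdsWithin_le_nhds)).norm.mul
      ((d2.tendsto_slope.comp l).norm.const_mul 6))
    have t2 := (d1.tendsto_slope.comp l).norm
    have ev : ∀ᶠ y : ℝ in 𝓝[>] y0, (cexp (4 * (y * I))).re < 0.305 :=
      ((Continuous.tendsto (f := fun y : ℝ => (cexp (4 * (y * I))).re) (by fun_prop) y0).eventually
        (gt_mem_nhds r0)).filter_mono nhdsWithin_le_nhds
    have := le_of_tendsto_of_tendsto t1 t2 (by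
      filter_upwards [ev, Ioo_mem_nhdsGT hb] with y h1 h2
      have m := mI y (hy.trans h2.1).le h2.2.le
      have := K_lip (mR _ m h1.le) (mR _ m0 r0.le)
      rw [k0, sub_zero] at this
      have e3 : Ph (y * I) = P (y * I) * K (cexp (4 * (y * I))) := Ph_K (hQ m) (sector m).2.1
      simp only [Function.comp, slope, vsub_eq_sub, smul_eq_mul, norm_mul, z0, sub_zero, e3]
      calc _ = ‖(y * I - y0 * I : ℂ)⁻¹‖ * (‖P (y * I)‖ *
            (6 * ‖cexp (4 * (y * I)) - cexp (4 * (y0 * I))‖)) := by ring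
        _ ≤ _ := by gcongr)
    rw [norm_zero] at this
    exact this.not_gt (mul_pos (norm_pos_iff.2 P0) (by simp))

end Pool.Agent.H.MP_c1ac71_an
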